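import Pool.Agent.H868.TP.Cc

/-!
Hilbert functions of the quotients `L / T` of ideals, and multiplication by a form on them.
-/

namespace Pool.Agent.H868.TR

set_option maxHeartbeats 400000
set_option linter.unusedSectionVars false

open MvPolynomial
open Pool.Agent.H868.TS
open Pool.Agent.TH61.SL (hc comp_mul hc_zero hc_hom comp_self comp_ne)
open H503R3.QCI (Homog NZD Reg homog_span)

variable {ν : ℕ} {K : Type*} [Field K]

/-- the ideal `T + F L` -/
noncomputable def TT (T L : Ideal (Rv ν K)) (F : Rv ν K) : Ideal (Rv ν K) := T ⊔ Ideal.span {F} * L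

lemma mem_TT {T L : Ideal (Rv ν K)} {F x : Rv ν K} : x ∈ TT T L F ↔ ∃ y ∈ L, x - F * y ∈ T := by
  rw [TT]
  constructor
  · intro h
    obtain ⟨t, ht, u, hu, rfl⟩ := Submodule.mem_sup.1 h
    obtain ⟨y, hy, rfl⟩ := Ideal.mem_span_singleton_mul.1 hu
    exact ⟨y, hy, by rwa [add_sub_cancel_right]⟩
  · rintro ⟨y, hy, h⟩
    exact Submodule.mem_sup.2 ⟨_, h, F * y, Ideal.mem_span_singleton_mul.2 ⟨y, hy, rfl⟩,
      sub_add_cancel _ _⟩

lemma le_TT {T L : Ideal (Rv ν K)} {F : Rv ν K} : T ≤ TT T L F := le_sup_left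

lemma mul_mem_TT {T L : Ideal (Rv ν K)} {F y : Rv ν K} (hy : y ∈ L) : F * y ∈ TT T L F :=
  mem_TT.2 ⟨y, hy, by rw [sub_self]; exact T.zero_mem⟩

lemma TT_le {T L : Ideal (Rv ν K)} {F : Rv ν K} (h : T ≤ L) : TT T L F ≤ L :=
  sup_le h Ideal.mul_le_right

lemma TT_mono {T T' L : Ideal (Rv ν K)} {F : Rv ν K} (h : T ≤ T') : TT T L F ≤ TT T' L F :=
  sup_le_sup_right h _

lemma hc_mem {L : Ideal (Rv ν K)} (hL : Homog L) {y : Rv ν K} (hy : y ∈ L) (a n : ℕ) :
    hc a n y ∈ L := by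
  rw [hc]
  split_ifs
  · exact hL y hy _
  · exact L.zero_mem

lemma TT_homog {T L : Ideal (Rv ν K)} (hT : Homog T) (hL : Homog L) {F : Rv ν K} {d : ℕ}
    (hF : F.IsHomogeneous d) : Homog (TT T L F) := by
  intro x hx n
  obtain ⟨y, hy, h⟩ := mem_TT.1 hx
  refine mem_TT.2 ⟨hc d n y, hc_mem hL hy _ _, ?_⟩
  have h1 := hT _ h n
  rwa [map_sub, mul_comm, comp_mul hF, mul_comm] at h1

/-- the elements of `L` which `F` multiplies into `T` -/
def col (T L : Ideal (Rv ν K)) (F : Rv ν K) : Ideal (Rv ν K) where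
  carrier := {z | z ∈ L ∧ F * z ∈ T}
  zero_mem' := ⟨L.zero_mem, by rw [mul_zero]; exact T.zero_mem⟩
  add_mem' := fun hx hy => ⟨L.add_mem hx.1 hy.1, by rw [mul_add]; exact T.add_mem hx.2 hy.2⟩
  smul_mem' := fun c x hx => ⟨L.mul_mem_left c hx.1, by
    rw [smul_eq_mul, mul_left_comm]; exact T.mul_mem_left _ hx.2⟩

lemma mem_col {T L : Ideal (Rv ν K)} {F z : Rv ν K} : z ∈ col T L F ↔ z ∈ L ∧ F * z ∈ T := Iff.rfl

/-- multiplication by a form -/
noncomputable def mF {F : Rv ν K} {d : ℕ} (hF : F.IsHomogeneous d) (n : ℕ) :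
    G ν K n →ₗ[K] G ν K (n + d) :=
  ((LinearMap.mulLeft K F).domRestrict (G ν K n)).codRestrict (G ν K (n + d)) fun x => by
    rw [mem_G]
    have h1 := hF.mul (mem_G.1 x.2)
    rwa [add_comm] at h1

lemma mF_apply {F : Rv ν K} {d : ℕ} (hF : F.IsHomogeneous d) (n : ℕ) (x : G ν K n) :
    (mF hF n x : Rv ν K) = F * x := rfl

lemma mF_inj {F : Rv ν K} {d : ℕ} (hF : F.IsHomogeneous d) (hF0 : F ≠ 0) (n : ℕ) :
    Function.Injective (mF hF n) := by
  rw [← LinearMap.ker_eq_bot, LinearMap.ker_eq_bot']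
  intro x hx
  have h1 : (mF hF n x : Rv ν K) = 0 := by rw [hx]; rfl
  rw [mF_apply] at h1
  exact Subtype.ext ((mul_eq_zero.1 h1).resolve_left hF0)

/-- **the fundamental equation** -/
theorem fund {T L : Ideal (Rv ν K)} (hT : Homog T) (hL : Homog L) {F : Rv ν K} {d : ℕ}
    (hF : F.IsHomogeneous d) (hF0 : F ≠ 0) (n : ℕ) :
    q T (n + d) + q L n = q (TT T L F) (n + d) + q (col T L F) n := by
  have e1 : cm (TT T L F) (n + d) = cm T (n + d) ⊔ (cm L n).map (mF hF n) := by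
    apply le_antisymm
    · intro x hx
      obtain ⟨y, hy, h⟩ := mem_TT.1 hx
      have h0 : (x : Rv ν K) - F * y ∈ T := h
      have h1 := hT _ h0 (n + d)
      rw [map_sub, comp_self (mem_G.1 x.2), mul_comm, comp_mul hF, hc, if_pos (by omega),
        Nat.add_sub_cancel, mul_comm] at h1
      refine Submodule.mem_sup.2 ⟨x - mF hF n ⟨homogeneousComponent n y, mem_G.2
        (homogeneousComponent_isHomogeneous _ _)⟩, h1, _, Submodule.mem_map_of_mem (hL y hy n),
        sub_add_cancel _ _⟩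
    · rw [sup_le_iff]
      constructor
      · exact fun x hx => le_TT (F := F) hx
      · rintro _ ⟨y, hy, rfl⟩
        rw [mem_cm, mF_apply]
        exact mul_mem_TT hy
  have e2 : cm T (n + d) ⊓ (cm L n).map (mF hF n) = (cm (col T L F) n).map (mF hF n) := by
    ext x
    constructor
    · rintro ⟨h1, y, hy, rfl⟩
      exact ⟨y, ⟨hy, h1⟩, rfl⟩
    · rintro ⟨y, hy, rfl⟩
      exact ⟨hy.2, y, hy.1, rfl⟩
  have h1 := Submodule.finrank_sup_add_finrank_inf_eq (cm T (n + d)) ((cm L n).map (mF hF n))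
  have b1 := (Submodule.equivMapOfInjective (mF hF n) (mF_inj hF hF0 n) (cm L n)).finrank_eq
  have b2 := (Submodule.equivMapOfInjective (mF hF n) (mF_inj hF hF0 n)
    (cm (col T L F) n)).finrank_eq
  rw [← e1, e2] at h1
  · have a1 := Submodule.finrank_quotient_add_finrank (cm T (n + d))
    have a2 := Submodule.finrank_quotient_add_finrank (cm L n)
    have a3 := Submodule.finrank_quotient_add_finrank (cm (TT T L F) (n + d))
    have a4 := Submodule.finrank_quotient_add_finrank (cm (col T L F) n)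
    rw [q, q, q, q]
    omega

/-- the Hilbert function of `L / T` -/
noncomputable def D (L T : Ideal (Rv ν K)) (n : ℕ) : ℤ := (q T n : ℤ) - q L n

lemma D_anti {L T T' : Ideal (Rv ν K)} {n : ℕ}
    (h : ∀ x : Rv ν K, x.IsHomogeneous n → x ∈ T → x ∈ T') : D L T' n ≤ D L T n := by
  have := q_mono h
  rw [D, D]
  omega

lemma D_nonneg {L T : Ideal (Rv ν K)} (h : T ≤ L) (n : ℕ) : 0 ≤ D L T n := by
  have := q_mono (n := n) fun (x : Rv ν K) _ hx => h hx
  rw [D]
  omega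

lemma D_self (L : Ideal (Rv ν K)) (n : ℕ) : D L L n = 0 := by rw [D]; omega

lemma D_fund {T L : Ideal (Rv ν K)} (hT : Homog T) (hL : Homog L) {F : Rv ν K} {d : ℕ}
    (hF : F.IsHomogeneous d) (hF0 : F ≠ 0) (n : ℕ) :
    D L (TT T L F) (n + d) = D L T (n + d) - D L (col T L F) n := by
  have := fund hT hL hF hF0 n
  rw [D, D, D]
  omega

lemma D_nzd {T L : Ideal (Rv ν K)} (hTL : T ≤ L) (hT : Homog T) (hL : Homog L) {F : Rv ν K} {d : ℕ}
    (hF : F.IsHomogeneous d) (hF0 : F ≠ 0) (h : ∀ z ∈ L, F * z ∈ T → z ∈ T) (n : ℕ) :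
    D L (TT T L F) (n + d) = D L T (n + d) - D L T n := by
  have e : col T L F = T := by
    apply le_antisymm
    · exact fun z hz => h z hz.1 hz.2
    · exact fun z hz => ⟨hTL hz, T.mul_mem_left _ hz⟩
  rw [D_fund hT hL hF hF0, e]

lemma D_le {T L : Ideal (Rv ν K)} (hTL : T ≤ L) (hT : Homog T) (hL : Homog L) {F : Rv ν K} {d : ℕ}
    (hF : F.IsHomogeneous d) (hF0 : F ≠ 0) (n : ℕ) :
    D L T (n + d) - D L T n ≤ D L (TT T L F) (n + d) := by
  have h1 := D_fund hT hL hF hF0 n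
  have h2 : D L (col T L F) n ≤ D L T n :=
    D_anti fun x _ hx => ⟨hTL hx, T.mul_mem_left _ hx⟩
  omega

lemma D_low {T L : Ideal (Rv ν K)} (hT : Homog T) {F : Rv ν K} {d : ℕ}
    (hF : F.IsHomogeneous d) {n : ℕ} (hn : n < d) : D L (TT T L F) n = D L T n := by
  have e : cm (TT T L F) n = cm T n := by
    ext x
    constructor
    · intro hx
      obtain ⟨y, hy, h⟩ := mem_TT.1 hx
      have h0 : (x : Rv ν K) - F * y ∈ T := h
      have h1 := hT _ h0 n
      rwa [map_sub, comp_self (mem_G.1 x.2), mul_comm, comp_mul hF, hc_zero hn, zero_mul,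
        sub_zero] at h1
    · exact fun hx => le_TT (F := F) hx
  rw [D, D, q, e]
  rfl

end Pool.Agent.H868.TR
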