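import Pool.Agent.H868.TR.A

/-!
A component `P` of a reduced complete intersection `J`, and the module `L / J`, `L = (J : P)`: depth,
nonzerodivisors, and the lower bound for the colon ideal of a syzygy.
-/

namespace Pool.Agent.H868.TR

set_option maxHeartbeats 400000
set_option linter.unusedSectionVars false

open MvPolynomial
open Pool.Agent.H868.TS
open Pool.Agent.TH61.SL (hc comp_mul hc_zero hc_hom comp_self comp_ne)
open H503R3.QCI (Homog NZD Reg homog_span)

variable {ν : ℕ} {K : Type*} [Field K]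

/-- `P` is a component of `J` and `L = (J : P)` -/
structure Comp (J P L : Ideal (Rv ν K)) : Prop where
  hJ : Homog J
  hP : Homog P
  hL : Homog L
  prime : P.IsPrime
  JP : J ≤ P
  JL : J ≤ L
  ann : ∀ x ∈ P, ∀ z ∈ L, x * z ∈ J
  colon : ∀ z, (∀ x ∈ P, x * z ∈ J) → z ∈ L
  int : ∀ z ∈ P, z ∈ L → z ∈ J
  ne : ¬ L ≤ J
  sat : Sat J

variable {J P L : Ideal (Rv ν K)}

lemma Comp.tf (h : Comp J P L) {x z : Rv ν K} (hx : x ∉ P) (hz : z ∈ L) (hxz : x * z ∈ J) : z ∈ J :=
  h.int z ((h.prime.mem_or_mem (h.JP hxz)).resolve_left hx) hz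

lemma homog_le {L J : Ideal (Rv ν K)} (hL : Homog L)
    (h : ∀ n z, z ∈ L → z.IsHomogeneous n → z ∈ J) : L ≤ J := by
  intro z hz
  rw [← sum_homogeneousComponent z]
  exact J.sum_mem fun n _ => h n _ (hL z hz n) (homogeneousComponent_isHomogeneous _ _)

/-- the argument of Nakayama -/
lemma nak (hJ : Homog J) (hL : Homog L) {f : Rv ν K} {d : ℕ} (hf : f.IsHomogeneous d) (hd : 1 ≤ d)
    (h : L ≤ TT J L f) : L ≤ J := by
  apply homog_le hL
  intro n
  induction n using Nat.strong_induction_on with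
  | _ n ih =>
    intro z hz hzn
    obtain ⟨y, hy, h1⟩ := mem_TT.1 (h hz)
    have h2 := hJ _ h1 n
    rw [map_sub, comp_self hzn, mul_comm, comp_mul hf] at h2
    have h3 : hc d n y ∈ J := by
      rw [hc]
      split_ifs with h4
      · exact ih (n - d) (by omega) _ (hL y hy _) (homogeneousComponent_isHomogeneous _ _)
      · exact J.zero_mem
    have h5 : z = (z - hc d n y * f) + hc d n y * f := by ring
    rw [h5]
    exact J.add_mem h2 (J.mul_mem_right _ h3)

/-- depth two of `L / J` -/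
theorem Comp.rsat [CharZero K] (h : Comp J P L) {g : Rv ν K} {d : ℕ} (hg : g.IsHomogeneous d)
    (hd : 1 ≤ d) (hng : ∀ x, g * x ∈ J → x ∈ J) (hsg : Sat (J ⊔ Ideal.span {g})) {s : Rv ν K}
    (hs : s ∉ P) {z : Rv ν K} (hz : z ∈ L) (hm : ∀ k, X k * z ∈ TT J L s) : z ∈ TT J L s := by
  have h1 : ∀ k, ∃ y ∈ L, X k * z - s * y ∈ J := fun k => mem_TT.1 (hm k)
  choose y hy hyJ using h1
  have h2 : ∀ j k, X j * y k - X k * y j ∈ J := by
    intro j k
    apply h.tf hs (L.sub_mem (L.mul_mem_left _ (hy k)) (L.mul_mem_left _ (hy j)))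
    have e : s * (X j * y k - X k * y j)
        = X k * (X j * z - s * y j) - X j * (X k * z - s * y k) := by ring
    rw [e]
    exact J.sub_mem (J.mul_mem_left _ (hyJ j)) (J.mul_mem_left _ (hyJ k))
  have hE := hg.sum_X_mul_pderiv
  rw [nsmul_eq_mul] at hE
  set yg := ∑ k, pderiv k g * y k with hyg
  have h3 : ∀ j, X j * yg - (d : Rv ν K) * (g * y j) ∈ J := by
    intro j
    have e : X j * yg - (d : Rv ν K) * (g * y j)
        = ∑ k, pderiv k g * (X j * y k - X k * y j) := by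
      rw [← mul_assoc, ← hE, hyg, Finset.mul_sum, Finset.sum_mul, ← Finset.sum_sub_distrib]
      exact Finset.sum_congr rfl fun k _ => by ring
    rw [e]
    exact J.sum_mem fun k _ => J.mul_mem_left _ (h2 j k)
  have h4 : yg ∈ J ⊔ Ideal.span {g} := by
    apply hsg
    intro j
    rw [mem_sup']
    refine ⟨(d : Rv ν K) * y j, ?_⟩
    have e : X j * yg - g * ((d : Rv ν K) * y j) = X j * yg - (d : Rv ν K) * (g * y j) := by ring
    rw [e]
    exact h3 j
  obtain ⟨y0, hy0⟩ := mem_sup'.1 h4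
  have h5 : ∀ j, X j * y0 - (d : Rv ν K) * y j ∈ J := by
    intro j
    apply hng
    have e : g * (X j * y0 - (d : Rv ν K) * y j)
        = (X j * yg - (d : Rv ν K) * (g * y j)) - X j * (yg - g * y0) := by ring
    rw [e]
    exact J.sub_mem (h3 j) (J.mul_mem_left _ hy0)
  have hy0L : y0 ∈ L := by
    apply h.colon
    intro x hx
    apply h.sat
    intro j
    have e : X j * (x * y0) = x * (X j * y0 - (d : Rv ν K) * y j) + (d : Rv ν K) * (x * y j) := by
      ring
    rw [e]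
    exact J.add_mem (J.mul_mem_left _ (h5 j)) (J.mul_mem_left _ (h.ann x hx _ (hy j)))
  have hd0 : (d : K) ≠ 0 := Nat.cast_ne_zero.2 (by omega)
  have hcd : (C ((d : K)⁻¹) : Rv ν K) * (d : Rv ν K) = 1 := by
    have h5 : (d : Rv ν K) = C (d : K) := (map_natCast C _).symm
    rw [h5, ← C_mul, inv_mul_cancel₀ hd0, C_1]
  rw [mem_TT]
  refine ⟨C ((d : K)⁻¹) * y0, L.mul_mem_left _ hy0L, ?_⟩
  apply h.sat
  intro j
  have e : X j * (z - s * (C ((d : K)⁻¹) * y0))
      = (X j * z - s * y j) - s * C ((d : K)⁻¹) * (X j * y0 - (d : Rv ν K) * y j) := by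
    linear_combination (-(s * y j)) * hcd
  rw [e]
  exact J.sub_mem (hyJ j) (J.mul_mem_left _ (h5 j))

lemma rsat_pow {T : Ideal (Rv ν K)} (hT : ∀ z ∈ L, (∀ k, X k * z ∈ T) → z ∈ T) :
    ∀ (k : ℕ) (y : Rv ν K), y ∈ L → (∀ g : Rv ν K, g.IsHomogeneous k → g * y ∈ T) → y ∈ T := by
  intro k
  induction k with
  | zero =>
    intro y _ h
    have := h 1 (isHomogeneous_one _ _)
    rwa [one_mul] at this
  | succ k ih =>
    intro y hy h
    apply hT _ hy
    intro j
    apply ih _ (L.mul_mem_left _ hy)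
    intro g hg
    rw [← mul_assoc]
    exact h _ (hg.mul (isHomogeneous_X K j))

/-- regular sequences on `L / J` -/
lemma Comp.rreg (h : Comp J P L) {f g : Rv ν K} (hf : ∀ x, f * x ∈ J → x ∈ J)
    (hg : ∀ x, g * x ∈ J ⊔ Ideal.span {f} → x ∈ J ⊔ Ideal.span {f}) {z : Rv ν K} (hz : z ∈ L)
    (hgz : g * z ∈ TT J L f) : z ∈ TT J L f := by
  obtain ⟨y, hy, h1⟩ := mem_TT.1 hgz
  obtain ⟨z0, h2⟩ := mem_sup'.1 (hg z (mem_sup'.2 ⟨y, h1⟩))
  refine mem_TT.2 ⟨z0, h.colon _ fun x hx => hf _ ?_, h2⟩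
  have e : f * (x * z0) = x * z - x * (z - f * z0) := by ring
  rw [e]
  exact J.sub_mem (h.ann x hx z hz) (J.mul_mem_left _ h2)

/-- a nonzerodivisor on `L / T` in a space `U` of polynomials, outside a given subspace `H` -/
theorem rnzd [Infinite K] {T : Ideal (Rv ν K)} {U : Submodule K (Rv ν K)}
    (hU : ∀ w ∈ L, (∀ u ∈ U, u * w ∈ T) → w ∈ T) {H : Submodule K (Rv ν K)} (hH : ¬ U ≤ H) :
    ∃ c ∈ U, (∀ x ∈ L, c * x ∈ T → x ∈ T) ∧ c ∉ H := by
  classical
  let M : Submodule (Rv ν K) (Rv ν K ⧸ T) := Submodule.map T.mkQ L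
  have hM : ∀ x : Rv ν K, x ∈ L → (T.mkQ x) ∈ M := fun x hx => Submodule.mem_map_of_mem hx
  have hfin := associatedPrimes.finite (Rv ν K) M
  have hun := biUnion_associatedPrimes_eq_zero_divisors (Rv ν K) M
  let Vp : Ideal (Rv ν K) → Submodule K U :=
    fun p => (p.restrictScalars K).comap U.subtype
  let s : Finset (Submodule K U) := insert (H.comap U.subtype) (hfin.toFinset.image Vp)
  have hs : (⊤ : Submodule K U) ∉ s := by
    intro htop
    rcases Finset.mem_insert.mp htop with htop | htop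
    · apply hH
      intro u hu
      have h1 : (⟨u, hu⟩ : U) ∈ H.comap U.subtype := by rw [← htop]; exact Submodule.mem_top
      exact h1
    · obtain ⟨p, hp, hpt⟩ := Finset.mem_image.mp htop
      rw [Set.Finite.mem_toFinset] at hp
      obtain ⟨hprime, ⟨x, hxM⟩, hx⟩ := (isAssociatedPrime_iff).mp hp
      obtain ⟨w, hwL, rfl⟩ := hxM
      have hmem : ∀ r, r ∈ p ↔ r * w ∈ T := by
        intro r
        rw [hx, Submodule.mem_colon_singleton, Submodule.mem_bot]
        have h1 : r • (⟨T.mkQ w, hM w hwL⟩ : M) = ⟨T.mkQ (r * w), hM _ (L.mul_mem_left _ hwL)⟩ :=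
          Subtype.ext rfl
        rw [h1, Submodule.mk_eq_zero]
        exact Submodule.Quotient.mk_eq_zero T
      have hw : w ∈ T := hU w hwL fun u hu => by
        have h1 : (⟨u, hu⟩ : U) ∈ Vp p := by rw [hpt]; exact Submodule.mem_top
        exact (hmem u).1 h1
      apply hprime.ne_top
      rw [Ideal.eq_top_iff_one, hmem, one_mul]
      exact hw
  have hne := Subspace.biUnion_ne_univ_of_top_notMem hs
  obtain ⟨c, hc⟩ := (Set.ne_univ_iff_exists_notMem _).mp hne
  refine ⟨c, c.2, ?_, ?_⟩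
  · intro g hgL hg
    by_contra hgJ
    have h1 : (c : Rv ν K) ∈ {r : Rv ν K | ∃ x : M, x ≠ 0 ∧ r • x = 0} := by
      refine ⟨⟨T.mkQ g, hM g hgL⟩, ?_, ?_⟩
      · rw [Ne, Submodule.mk_eq_zero]
        intro h2
        exact hgJ ((Submodule.Quotient.mk_eq_zero T).1 h2)
      · have h2 : (c : Rv ν K) • (⟨T.mkQ g, hM g hgL⟩ : M)
            = ⟨T.mkQ (c * g), hM _ (L.mul_mem_left _ hgL)⟩ := Subtype.ext rfl
        rw [h2, Submodule.mk_eq_zero]
        exact (Submodule.Quotient.mk_eq_zero T).2 hg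
    rw [← hun] at h1
    obtain ⟨p, hp, hqp⟩ := Set.mem_iUnion₂.mp h1
    apply hc
    refine Set.mem_biUnion (x := Vp p) ?_ ?_
    · exact Finset.mem_coe.mpr (Finset.mem_insert_of_mem (Finset.mem_image.mpr
        ⟨p, (Set.Finite.mem_toFinset _).mpr hp, rfl⟩))
    · exact hqp
  · intro hcH
    apply hc
    refine Set.mem_biUnion (x := H.comap U.subtype) ?_ hcH
    exact Finset.mem_coe.mpr (Finset.mem_insert_self _ _)

/-- a general combination of `F` and the multiples of `f` is a nonzerodivisor on `L / (J, s L)` -/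
lemma Comp.rcomb [Infinite K] (h : Comp J P L) {s f F : Rv ν K} {k df : ℕ}
    (hsp : s ∉ P) (hsat : ∀ z ∈ L, (∀ k, X k * z ∈ TT J L s) → z ∈ TT J L s)
    (hfh : f.IsHomogeneous df) (hdf : 1 ≤ df) (hfP : f ∉ P)
    (h1 : ∀ z ∈ L, F * z ∈ TT J L f → z ∈ TT J L f) :
    ∃ (μ : K) (g : Rv ν K), μ ≠ 0 ∧ g.IsHomogeneous k ∧
      (∀ x ∈ L, (C μ * F + f * g) * x ∈ TT J L s → x ∈ TT J L s) := by
  classical
  let Φ : (K × G ν K k) →ₗ[K] Rv ν K :=
    (LinearMap.toSpanSingleton K (Rv ν K) F).coprod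
      ((LinearMap.mulLeft K f) ∘ₗ (G ν K k).subtype)
  have hΦ : ∀ (μ : K) (g : G ν K k), Φ (μ, g) = C μ * F + f * (g : Rv ν K) := by
    intro μ g
    rw [← smul_eq_C_mul]
    rfl
  let Hs : Submodule K (Rv ν K) := (G ν K k).map (LinearMap.mulLeft K f)
  obtain ⟨u, hu, hunz, huH⟩ := rnzd (L := L) (T := TT J L s) (U := LinearMap.range Φ) (H := Hs) (by
    intro w hwL hw
    apply rsat_pow hsat k _ hwL
    intro g hg
    have a1 : F * w ∈ TT J L s := by
      have := hw (Φ (1, 0)) ⟨_, rfl⟩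
      rw [hΦ] at this
      simpa using this
    have a2 : (f * g) * w ∈ TT J L s := by
      have := hw (Φ (0, ⟨g, mem_G.2 hg⟩)) ⟨_, rfl⟩
      rw [hΦ] at this
      simpa using this
    obtain ⟨α, hαL, hα⟩ := mem_TT.1 a1
    obtain ⟨β, hβL, hβ⟩ := mem_TT.1 a2
    have b1 : s * (F * β - f * (g * α)) ∈ J := by
      have e : s * (F * β - f * (g * α)) = f * g * (F * w - s * α) - F * (f * g * w - s * β) := by
        ring
      rw [e]
      exact J.sub_mem (J.mul_mem_left _ hα) (J.mul_mem_left _ hβ)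
    have b1' := h.tf hsp (L.sub_mem (L.mul_mem_left _ hβL)
      (L.mul_mem_left _ (L.mul_mem_left _ hαL))) b1
    have b2 : β ∈ TT J L f := h1 _ hβL (mem_TT.2 ⟨g * α, L.mul_mem_left _ hαL, b1'⟩)
    obtain ⟨δ, hδL, hδ⟩ := mem_TT.1 b2
    have b4 : g * w - s * δ ∈ J := by
      apply h.tf hfP (L.sub_mem (L.mul_mem_left _ hwL) (L.mul_mem_left _ hδL))
      have e : f * (g * w - s * δ) = (f * g * w - s * β) + s * (β - f * δ) := by ring
      rw [e]
      exact J.add_mem hβ (J.mul_mem_left _ hδ)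
    exact mem_TT.2 ⟨δ, hδL, b4⟩) (by
    intro hle
    have h2 : F ∈ Hs := by
      apply hle
      refine ⟨(1, 0), ?_⟩
      rw [hΦ]
      simp
    obtain ⟨g, hg, hgF⟩ := h2
    have h3 : f * g = F := hgF
    apply h.ne
    apply nak h.hJ h.hL hfh hdf
    intro z hz
    apply h1 z hz
    rw [← h3, mul_assoc]
    exact mul_mem_TT (L.mul_mem_left _ hz))
  obtain ⟨⟨μ, g⟩, rfl⟩ := hu
  rw [hΦ] at hunz huH
  refine ⟨μ, g, ?_, mem_G.1 g.2, hunz⟩
  rintro rfl
  apply huH
  rw [C_0, zero_mul, zero_add]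
  exact ⟨g, g.2, rfl⟩

/-- elements of large degree of `L` are combinations with coefficients of large degree -/
lemma gen_ind (hL : Homog L) : ∃ B : ℕ, ∀ (W : Ideal (Rv ν K)) (k : ℕ),
    (∀ (g x : Rv ν K) (e : ℕ), k ≤ e → g.IsHomogeneous e → x ∈ L → g * x ∈ W) →
    ∀ (n : ℕ) (z : Rv ν K), B + k ≤ n → z ∈ L → z.IsHomogeneous n → z ∈ W := by
  classical
  obtain ⟨S, hS⟩ := (isNoetherian_def.1 (inferInstance : IsNoetherianRing (Rv ν K)) L)
  refine ⟨∑ x ∈ S, x.totalDegree, fun W k hW n z hn hz hzn => ?_⟩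
  rw [← hS] at hz
  obtain ⟨c, hc'⟩ := Submodule.mem_span_finset.1 hz
  obtain ⟨-, hc'⟩ := hc'
  have h1 := congrArg (homogeneousComponent n) hc'
  rw [comp_self hzn, map_sum] at h1
  rw [← h1]
  refine W.sum_mem fun x hx => ?_
  have hxL : x ∈ L := by rw [← hS]; exact Submodule.subset_span hx
  have hdx : x.totalDegree ≤ ∑ x ∈ S, x.totalDegree :=
    Finset.single_le_sum (f := fun x : Rv ν K => x.totalDegree) (fun _ _ => Nat.zero_le _) hx
  have h2 : homogeneousComponent n (c x • x)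
      = ∑ e ∈ Finset.range (x.totalDegree + 1), hc e n (c x) * homogeneousComponent e x := by
    have h3 : c x • x = ∑ e ∈ Finset.range (x.totalDegree + 1), c x * homogeneousComponent e x := by
      rw [smul_eq_mul, ← Finset.mul_sum, sum_homogeneousComponent]
    rw [h3, map_sum]
    exact Finset.sum_congr rfl fun e _ => comp_mul (homogeneousComponent_isHomogeneous _ _) _ _
  rw [h2]
  refine W.sum_mem fun e he => ?_
  have he' := Finset.mem_range.1 he
  exact hW _ _ (n - e) (by omega) (hc_hom _) (hL x hxL e)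

/-- the colon ideal of a vector -/
def VL (J L : Ideal (Rv ν K)) (s : Fin 3 → Rv ν K) (b : Fin 3) : Ideal (Rv ν K) where
  carrier := {g | g ∈ L ∧ ∀ a, s a * g ∈ TT J L (s b)}
  zero_mem' := ⟨L.zero_mem, fun _ => by rw [mul_zero]; exact Ideal.zero_mem _⟩
  add_mem' := fun hx hy => ⟨L.add_mem hx.1 hy.1, fun a => by
    rw [mul_add]; exact Ideal.add_mem _ (hx.2 a) (hy.2 a)⟩
  smul_mem' := fun c x hx => ⟨L.mul_mem_left _ hx.1, fun a => by
    rw [smul_eq_mul, mul_left_comm]; exact Ideal.mul_mem_left _ _ (hx.2 a)⟩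

lemma VL_homog (hJ : Homog J) (hL : Homog L) {s : Fin 3 → Rv ν K} {b : Fin 3}
    (hs : ∀ a, ∃ m, (s a).IsHomogeneous m) : Homog (VL J L s b) := by
  intro x hx n
  refine ⟨hL x hx.1 n, fun a => ?_⟩
  obtain ⟨m, hm⟩ := hs a
  obtain ⟨m', hm'⟩ := hs b
  have h1 := TT_homog hJ hL hm' _ (hx.2 a) (m + n)
  rw [mul_comm, comp_mul hm, hc, if_pos (by omega), Nat.add_sub_cancel_left] at h1
  rw [mul_comm]
  exact h1

lemma le_VL (hJL : J ≤ L) {s : Fin 3 → Rv ν K} {b : Fin 3} : J ≤ VL J L s b :=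
  fun _ hx => ⟨hJL hx, fun _ => le_TT (J.mul_mem_left _ hx)⟩

/-- a sequence which decreases in steps is bounded -/
lemma bdd_of_steps {u : ℕ → ℤ} {k e : ℕ} (he : 1 ≤ e) (h : ∀ n, k ≤ n → u (n + e) ≤ u n) :
    ∃ B : ℤ, ∀ n, u n ≤ B := by
  refine ⟨∑ j ∈ Finset.range (k + e), |u j|, fun n => ?_⟩
  induction n using Nat.strong_induction_on with
  | _ n ih =>
    by_cases hn : n < k + e
    · exact (le_abs_self _).trans (Finset.single_le_sum (f := fun j => |u j|)
        (fun _ _ => abs_nonneg _) (Finset.mem_range.2 hn))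
    · have h1 := h (n - e) (by omega)
      rw [show n - e + e = n by omega] at h1
      exact h1.trans (ih (n - e) (by omega))

section lower

variable {s F : Fin 3 → Rv ν K} {a b c : Fin 3}

/-- **the lower bound** -/
theorem Comp.lower [Infinite K] (h : Comp J P L) {d : Fin 3 → ℕ}
    (hs : ∀ a, ∃ m, (s a).IsHomogeneous m) (hF : ∀ a, (F a).IsHomogeneous (d a))
    (hda : 1 ≤ d a) (hac : d a ≤ d c) (hsb : s b ∉ P)
    (hsat : ∀ z ∈ L, (∀ k, X k * z ∈ TT J L (s b)) → z ∈ TT J L (s b))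
    (hrel : F a * s a + F b * s b + F c * s c ∈ P)
    (hFa : F a ∉ P) (hF0 : F b ≠ 0)
    (nc : ∀ z ∈ L, F c * z ∈ TT J L (F a) → z ∈ TT J L (F a))
    (hprim : ∃ k, ∀ n, k ≤ n → ∀ g : Rv ν K, g.IsHomogeneous n →
      g ∈ J ⊔ Ideal.span {F a} ⊔ Ideal.span {F c} ⊔ Ideal.span {F b}) :
    ∃ B : ℤ, ∀ n, D L (TT J L (F a)) (n + d b) ≤ D L (VL J L s b) n + B := by
  obtain ⟨μ, g, hμ, hg, hnz⟩ := h.rcomb (k := d c - d a) hsb hsat (hF a) hda hFa nc
  set F' := C μ * F c + F a * g with hF'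
  have hF'h : F'.IsHomogeneous (d c) := by
    have h1 := (hF a).mul hg
    rw [Nat.add_sub_cancel' hac] at h1
    exact ((hF c).C_mul μ).add h1
  have hμ1 : (C μ⁻¹ : Rv ν K) * C μ = 1 := by rw [← C_mul, inv_mul_cancel₀ hμ, C_1]
  have hF'0 : F' ≠ 0 := by
    intro h0
    apply h.ne
    apply nak h.hJ h.hL (hF a) hda
    intro z hz
    apply nc z hz
    have e : F c * z = F a * (C μ⁻¹ * (-g * z)) + C μ⁻¹ * z * F' := by
      rw [hF']
      linear_combination (-(F c * z)) * hμ1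
    rw [e, h0, mul_zero, add_zero]
    exact mul_mem_TT (L.mul_mem_left _ (L.mul_mem_left _ hz))
  set V := VL J L s b with hV
  have hVL : V ≤ L := fun x hx => hx.1
  have hVh : Homog V := VL_homog h.hJ h.hL hs
  set Ta := TT J L (F a) with hTa
  have hTaL : Ta ≤ L := TT_le h.JL
  have hTah : Homog Ta := TT_homog h.hJ h.hL (hF a)
  set Tc := TT Ta L F' with hTc
  have hTcL : Tc ≤ L := TT_le hTaL
  have hTch : Homog Tc := TT_homog hTah h.hL hF'h
  have hn1 : ∀ z ∈ L, F' * z ∈ V → z ∈ V := by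
    intro z hz hx
    refine ⟨hz, fun a' => ?_⟩
    apply hnz _ (L.mul_mem_left _ hz)
    have h1 := hx.2 a'
    rwa [mul_left_comm] at h1
  have hFcT : ∀ y ∈ L, F c * y ∈ Tc := by
    intro y hy
    have e : F c * y = F' * (C μ⁻¹ * y) + F a * (-(C μ⁻¹ * g) * y) := by
      rw [hF']
      linear_combination (-(F c * y)) * hμ1
    rw [e]
    exact Tc.add_mem (mul_mem_TT (L.mul_mem_left _ hy))
      (le_TT (mul_mem_TT (L.mul_mem_left _ hy)))
  have hVW : TT V L F' ≤ col Tc L (F b) := by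
    intro x hx
    obtain ⟨y, hy, hz⟩ := mem_TT.1 hx
    have h1 : x - F' * y ∈ col Tc L (F b) := by
      set z := x - F' * y with hzdef
      refine ⟨hz.1, ?_⟩
      obtain ⟨α, hαL, hα⟩ := mem_TT.1 (hz.2 a)
      obtain ⟨γ, hγL, hγ⟩ := mem_TT.1 (hz.2 c)
      have h2 : s b * (F a * α + F b * z + F c * γ) ∈ J := by
        have e : s b * (F a * α + F b * z + F c * γ)
            = (F a * s a + F b * s b + F c * s c) * z - F a * (s a * z - s b * α)
              - F c * (s c * z - s b * γ) := by ring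
        rw [e]
        exact J.sub_mem (J.sub_mem (h.ann _ hrel _ hz.1) (J.mul_mem_left _ hα))
          (J.mul_mem_left _ hγ)
      have hη := h.tf hsb (L.add_mem (L.add_mem (L.mul_mem_left _ hαL) (L.mul_mem_left _ hz.1))
        (L.mul_mem_left _ hγL)) h2
      have e : F b * z = (F a * α + F b * z + F c * γ) + F a * (-α) + F c * (-γ) := by ring
      rw [e]
      exact Tc.add_mem (Tc.add_mem (le_TT (le_TT hη)) (le_TT (mul_mem_TT (L.neg_mem hαL))))
        (hFcT _ (L.neg_mem hγL))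
    have h2 : x = (x - F' * y) + F' * y := by ring
    rw [h2]
    refine Ideal.add_mem _ h1 ⟨L.mul_mem_left _ hy, ?_⟩
    rw [mul_left_comm]
    exact mul_mem_TT (L.mul_mem_left _ hy)
  -- large degrees
  obtain ⟨k0, hk0⟩ := hprim
  obtain ⟨B, hB⟩ := gen_ind h.hL
  have hbig : ∀ n, B + k0 ≤ n → D L (TT Tc L (F b)) n = 0 := by
    intro n hn
    apply le_antisymm _ (D_nonneg (TT_le hTcL) n)
    rw [← D_self L n]
    refine D_anti fun z hzn hz => ?_
    refine hB _ k0 (fun g x e he hg hx => ?_) n z hn hz hzn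
    obtain ⟨β, hβ⟩ := mem_sup'.1 (hk0 e he g hg)
    obtain ⟨γ, hγ⟩ := mem_sup'.1 hβ
    obtain ⟨α, hα⟩ := mem_sup'.1 hγ
    have e1 : g * x = (g - F b * β - F c * γ - F a * α) * x + F a * (α * x) + F c * (γ * x)
        + F b * (β * x) := by ring
    rw [e1]
    refine Ideal.add_mem _ (Ideal.add_mem _ (Ideal.add_mem _
      (le_TT (le_TT (le_TT (J.mul_mem_right _ hα)))) (le_TT (le_TT (mul_mem_TT
        (L.mul_mem_left _ hx))))) (le_TT (hFcT _ (L.mul_mem_left _ hx))))
      (mul_mem_TT (L.mul_mem_left _ hx))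
  have hstep : ∀ n, B + k0 ≤ n → D L Ta (n + d c + d b) - D L V (n + d c)
      ≤ D L Ta (n + d b) - D L V n := by
    intro n hn
    have b1 := D_nzd hVL hVh h.hL hF'h hF'0 hn1 n
    have b2 : D L (col Tc L (F b)) (n + d c) ≤ D L (TT V L F') (n + d c) :=
      D_anti fun x _ hx => hVW hx
    have b3 := D_fund hTch h.hL (hF b) hF0 (n + d c)
    have b4 := hbig (n + d c + d b) (by omega)
    have b5 := D_le hTaL hTah h.hL hF'h hF'0 (n + d b)
    rw [show n + d b + d c = n + d c + d b by omega] at b5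
    rw [← hTc] at b5
    omega
  obtain ⟨B', hB'⟩ := bdd_of_steps (u := fun n => D L Ta (n + d b) - D L V n) (k := B + k0)
    (e := d c) (by omega) (fun n hn => by
      have := hstep n hn
      exact this)
  refine ⟨B', fun n => ?_⟩
  have := hB' n
  change D L Ta (n + d b) - D L V n ≤ B' at this
  omega

end lower

end Pool.Agent.H868.TR
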