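import Pool.Agent.H868.TR.B

/-!
The upper bound for the colon ideal of a syzygy, the growth of the Hilbert function of `L / J`, and the
inequality of degrees.
-/

namespace Pool.Agent.H868.TR

set_option maxHeartbeats 400000
set_option linter.unusedSectionVars false

open MvPolynomial
open Pool.Agent.H868.TS
open Pool.Agent.TH61.SL (hc comp_mul hc_zero hc_hom comp_self comp_ne)
open H503R3.QCI (Homog NZD Reg homog_span)

variable {ν : ℕ} {K : Type*} [Field K] {J P L : Ideal (Rv ν K)}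

/-- **the upper bound** -/
theorem Comp.upper (h : Comp J P L) (hν : 1 ≤ ν) {V : Ideal (Rv ν K)} (hV : Homog V)
    (hJV : J ≤ V) (hVL : V ≤ L) {ℓ w : Rv ν K} {r δ : ℕ}
    (hℓ : ℓ.IsHomogeneous 1) (hℓ0 : ℓ ≠ 0) (hw : w.IsHomogeneous δ) (hw0 : w ≠ 0)
    (nℓ : ∀ z ∈ L, ℓ * z ∈ J → z ∈ J)
    (nw : ∀ z ∈ L, w * z ∈ TT J L ℓ → z ∈ TT J L ℓ)
    (hpow : ∀ i, ∀ z ∈ L, (X i) ^ r * (w * z) ∈ TT V L ℓ) :
    ∃ B : ℤ, ∀ n, D L V (n + δ) ≤ D L J (n + δ) - D L J n + B := by
  obtain ⟨B, hB⟩ := gen_ind h.hL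
  set Tℓ := TT J L ℓ with hTℓ
  have hTℓL : Tℓ ≤ L := TT_le h.JL
  have hTℓh : Homog Tℓ := TT_homog h.hJ h.hL hℓ
  have a2 : ∀ n, B + ν * r + δ ≤ n → D L (TT V L ℓ) n ≤ D L (TT Tℓ L w) n := by
    intro n hn
    refine D_anti fun x hx hmem => ?_
    obtain ⟨y, hy, h1⟩ := mem_TT.1 hmem
    have h2 := hTℓh _ h1 n
    rw [map_sub, comp_self hx, mul_comm, comp_mul hw, mul_comm] at h2
    have h3 : hc δ n y ∈ col (TT V L ℓ) L w := by
      refine hB _ (ν * r) (fun g x e he hg hx => ?_) (n - δ) _ (by omega) (hc_mem h.hL hy _ _)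
        (hc_hom _)
      refine ⟨L.mul_mem_left _ hx, ?_⟩
      have e1 : w * (g * x) = g * (w * x) := by ring
      rw [e1]
      exact mem_of_pow hν (fun i => hpow i x hx) he hg
    have h4 : x = (x - w * hc δ n y) + w * hc δ n y := by ring
    rw [h4]
    exact Ideal.add_mem _ (TT_mono hJV h2) h3.2
  obtain ⟨B', hB'⟩ := bdd_of_steps
    (u := fun n => D L V (n + δ) - D L J (n + δ) + D L J n) (k := B + ν * r + δ) (e := 1) le_rfl
    (fun n hn => by
      have b1 := D_le hVL hV h.hL hℓ hℓ0 (n + δ)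
      have b2 := a2 (n + δ + 1) (by omega)
      have b3 := D_nzd hTℓL hTℓh h.hL hw hw0 nw (n + 1)
      have b4 := D_nzd h.JL h.hJ h.hL hℓ hℓ0 nℓ (n + δ)
      have b5 := D_nzd h.JL h.hJ h.hL hℓ hℓ0 nℓ n
      rw [show n + 1 + δ = n + δ + 1 by omega] at b3
      change D L V (n + 1 + δ) - D L J (n + 1 + δ) + D L J (n + 1)
        ≤ D L V (n + δ) - D L J (n + δ) + D L J n
      rw [show n + 1 + δ = n + δ + 1 by omega]
      rw [← hTℓ] at b4 b5
      omega)
  refine ⟨B', fun n => ?_⟩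
  have := hB' n
  change D L V (n + δ) - D L J (n + δ) + D L J n ≤ B' at this
  omega

/-- a bounded increasing sequence of integers is constant from some place on -/
lemma event_const {u : ℕ → ℤ} (hu : ∀ n, u n ≤ u (n + 1)) {B : ℤ} (hB : ∀ n, u n ≤ B) :
    ∃ n0, ∀ n, n0 ≤ n → u (n + 1) = u n := by
  by_contra hcon
  push Not at hcon
  have hm : Monotone u := monotone_nat_of_le_succ hu
  have h1 : ∀ k : ℕ, ∃ n, u 0 + k ≤ u n := by
    intro k
    induction k with
    | zero => exact ⟨0, by simp⟩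
    | succ k ih =>
      obtain ⟨n, hn⟩ := ih
      obtain ⟨n', hn', hne⟩ := hcon n
      refine ⟨n' + 1, ?_⟩
      have h2 := hm hn'
      have h3 := hu n'
      push_cast
      omega
  obtain ⟨n, hn⟩ := h1 (B - u 0 + 1).toNat
  have h2 := hB n
  have h3 := hB 0
  rw [Int.toNat_of_nonneg (by omega)] at hn
  omega

lemma mem_of_D_eq_zero {L T : Ideal (Rv ν K)} (hTL : T ≤ L) {n : ℕ} (hD : D L T n = 0) {z : Rv ν K}
    (hz : z ∈ L) (hzn : z.IsHomogeneous n) : z ∈ T := by
  have a1 := Submodule.finrank_quotient_add_finrank (cm T n)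
  have a2 := Submodule.finrank_quotient_add_finrank (cm L n)
  rw [D, q, q] at hD
  have h1 : Module.finrank K (cm T n) = Module.finrank K (cm L n) := by omega
  have h2 : cm T n ≤ cm L n := fun x hx => hTL hx
  have h3 := Submodule.eq_of_le_of_finrank_eq h2 h1
  have h4 : (⟨z, mem_G.2 hzn⟩ : G ν K n) ∈ cm L n := hz
  rw [← h3] at h4
  exact h4

/-- **the growth of the Hilbert function of `L / J`** -/
theorem Comp.growth (h : Comp J P L) {f g : Rv ν K} {e e' : ℕ} (hf : f.IsHomogeneous e)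
    (hg : g.IsHomogeneous e') (he : 1 ≤ e) (he' : 1 ≤ e') (hf0 : f ≠ 0) (hg0 : g ≠ 0)
    (nf : ∀ x, f * x ∈ J → x ∈ J) (ng : ∀ x, g * x ∈ J ⊔ Ideal.span {f} → x ∈ J ⊔ Ideal.span {f})
    (hs2 : ∀ k, 1 ≤ k → Sat (J ⊔ Ideal.span {f} ⊔ Ideal.span {g ^ k})) {B : ℤ}
    (hB : ∀ n, D L J (n + 1) - D L J n ≤ B) (hB0 : 0 ≤ B) : False := by
  classical
  have hTf : TT J L f ≤ L := TT_le h.JL
  have hTfh : Homog (TT J L f) := TT_homog h.hJ h.hL hf
  have hTg : TT (TT J L f) L g ≤ L := TT_le hTf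
  have hnf : ∀ z ∈ L, f * z ∈ J → z ∈ J := fun z _ => nf z
  have hng : ∀ z ∈ L, g * z ∈ TT J L f → z ∈ TT J L f := fun z hz => h.rreg nf ng hz
  -- `L / (J, f L)` has a bounded Hilbert function
  have hinc : ∀ k n : ℕ, D L J (n + k) - D L J n ≤ k * B := by
    intro k n
    induction k with
    | zero => simp
    | succ k ih =>
      have := hB (n + k)
      rw [← add_assoc]
      push_cast
      linarith
  have hY : ∀ n, D L (TT J L f) (n + e) ≤ e * B := by
    intro n
    rw [D_nzd h.JL h.hJ h.hL hf hf0 hnf]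
    exact hinc e n
  set Y := fun n => D L (TT J L f) n with hYdef
  have hE : ∀ n, Y (n + e') - Y n = D L (TT (TT J L f) L g) (n + e') := fun n =>
    (D_nzd hTf hTfh h.hL hg hg0 hng n).symm
  have hE0 : ∀ n, 0 ≤ D L (TT (TT J L f) L g) n := D_nonneg hTg
  obtain ⟨n0, hn0⟩ := event_const (u := fun n => ∑ j ∈ Finset.range e', Y (n + e + j))
    (fun n => by
      have h1 := Finset.sum_range_succ' (fun j => Y (n + e + j)) e'
      have h2 := Finset.sum_range_succ (fun j => Y (n + e + j)) e'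
      have h3 : ∑ j ∈ Finset.range e', Y (n + 1 + e + j)
          = ∑ j ∈ Finset.range e', Y (n + e + (j + 1)) :=
        Finset.sum_congr rfl fun j _ => by congr 1; omega
      have h4 := hE (n + e)
      have h5 := hE0 (n + e + e')
      change ∑ j ∈ Finset.range e', Y (n + e + j) ≤ ∑ j ∈ Finset.range e', Y (n + 1 + e + j)
      rw [h3]
      simp only [Nat.add_zero] at h1
      linarith)
    (B := e' * (e * B)) (fun n => by
      have h1 : ∑ j ∈ Finset.range e', Y (n + e + j) ≤ ∑ _j ∈ Finset.range e', (e * B : ℤ) :=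
        Finset.sum_le_sum fun j _ => by
          have := hY (n + j)
          rw [show n + j + e = n + e + j by omega] at this
          exact this
      rw [Finset.sum_const, Finset.card_range, nsmul_eq_mul] at h1
      exact h1)
  have hEz : ∀ n, n0 + e + e' ≤ n → D L (TT (TT J L f) L g) n = 0 := by
    intro n hn
    have h0 := hn0 (n - e - e') (by omega)
    have h1 := Finset.sum_range_succ' (fun j => Y (n - e - e' + e + j)) e'
    have h2 := Finset.sum_range_succ (fun j => Y (n - e - e' + e + j)) e'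
    have h3 : ∑ j ∈ Finset.range e', Y (n - e - e' + 1 + e + j)
        = ∑ j ∈ Finset.range e', Y (n - e - e' + e + (j + 1)) :=
      Finset.sum_congr rfl fun j _ => by congr 1; omega
    change ∑ j ∈ Finset.range e', Y (n - e - e' + 1 + e + j)
      = ∑ j ∈ Finset.range e', Y (n - e - e' + e + j) at h0
    rw [h3] at h0
    have h4 := hE (n - e')
    rw [show n - e' + e' = n by omega] at h4
    rw [show n - e - e' + e = n - e' by omega] at h1 h2 h0
    rw [show n - e' + e' = n by omega] at h2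
    simp only [Nat.add_zero] at h1
    linarith
  -- divisibility by the powers of `g`
  have hIh : Homog (J ⊔ Ideal.span {f}) := homog_sup h.hJ hf
  have hdiv : ∀ k n : ℕ, n0 + e + e' + k * e' ≤ n → ∀ z ∈ L, z.IsHomogeneous n →
      ∃ y ∈ L, y.IsHomogeneous (n - k * e') ∧ z - g ^ k * y ∈ J ⊔ Ideal.span {f} := by
    intro k
    induction k with
    | zero =>
      intro n _ z hz hzn
      refine ⟨z, hz, by simpa using hzn, ?_⟩
      rw [pow_zero, one_mul, sub_self]
      exact Ideal.zero_mem _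
    | succ k ih =>
      intro n hn z hz hzn
      have hk : (k + 1) * e' = k * e' + e' := by ring
      obtain ⟨y, hy, hyn, h1⟩ := ih n (by omega) z hz hzn
      have h2 := mem_of_D_eq_zero hTg (hEz (n - k * e') (by omega)) hy hyn
      obtain ⟨y2, hy2, h3⟩ := mem_TT.1 h2
      have h4 : y - g * y2 ∈ J ⊔ Ideal.span {f} := by
        obtain ⟨y1, _, h5⟩ := mem_TT.1 h3
        exact mem_sup'.2 ⟨y1, h5⟩
      have h5 := hIh _ h4 (n - k * e')
      rw [map_sub, comp_self hyn, mul_comm g y2, comp_mul hg, mul_comm _ g] at h5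
      refine ⟨hc e' (n - k * e') y2, hc_mem h.hL hy2 _ _, ?_, ?_⟩
      · rw [show n - (k + 1) * e' = n - k * e' - e' by omega]
        exact hc_hom _
      · have e1 : z - g ^ (k + 1) * hc e' (n - k * e') y2
            = (z - g ^ k * y) + g ^ k * (y - g * hc e' (n - k * e') y2) := by ring
        rw [e1]
        exact Ideal.add_mem _ h1 (Ideal.mul_mem_left _ _ h5)
  apply h.ne
  apply homog_le h.hL
  intro n
  induction n using Nat.strong_induction_on with
  | _ n ih =>
    intro z hz hzn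
    have h1 : z ∈ J ⊔ Ideal.span {f} ⊔ Ideal.span {g ^ (n + 1)} := by
      apply sat_pow (hs2 (n + 1) (by omega)) (n0 + e + e' + (n + 1) * e')
      intro G hG
      obtain ⟨y, _, _, h2⟩ := hdiv (n + 1) (n0 + e + e' + (n + 1) * e' + n) (by omega) (G * z)
        (L.mul_mem_left _ hz) (hG.mul hzn)
      exact mem_sup'.2 ⟨y, h2⟩
    obtain ⟨α, hα⟩ := mem_sup'.1 h1
    have h2 := hIh _ hα n
    rw [map_sub, comp_self hzn, mul_comm, comp_mul (hg.pow (n + 1)), hc_zero (by
      have := Nat.mul_le_mul he' (le_refl (n + 1))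
      omega), zero_mul, sub_zero] at h2
    obtain ⟨z0, hz0⟩ := mem_sup'.1 h2
    have h3 := h.hJ _ hz0 n
    rw [map_sub, comp_self hzn, mul_comm, comp_mul hf, mul_comm] at h3
    have h4 : hc e n z0 ∈ L := by
      apply h.colon
      intro x hx
      apply nf
      have e1 : f * (x * hc e n z0) = x * z - x * (z - f * hc e n z0) := by ring
      rw [e1]
      exact J.sub_mem (h.ann x hx z hz) (J.mul_mem_left _ h3)
    have h5 : hc e n z0 ∈ J := by
      by_cases hen : e ≤ n
      · exact ih (n - e) (by omega) _ h4 (hc_hom _)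
      · rw [hc_zero (by omega)]
        exact J.zero_mem
    have e1 : z = (z - f * hc e n z0) + f * hc e n z0 := by ring
    rw [e1]
    exact J.add_mem h3 (J.mul_mem_left _ h5)

/-- the numerical part -/
lemma numeric {u Xf Yf : ℕ → ℤ} {δ da db : ℕ} {B C : ℤ}
    (hmono : ∀ n, u n ≤ u (n + 1)) (hconv : ∀ n, u (n + 1) - u n ≤ u (n + 2) - u (n + 1))
    (hY : ∀ n, Yf (n + da) = u (n + da) - u n)
    (hlow : ∀ n, Yf (n + db) ≤ Xf n + B) (hup : ∀ n, Xf (n + δ) ≤ u (n + δ) - u n + C)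
    (hlt : δ < da) : ∀ n, u (n + 1) - u n ≤ B + C := by
  have hm : Monotone u := monotone_nat_of_le_succ hmono
  have hinc : Monotone fun n => u (n + 1) - u n := monotone_nat_of_le_succ fun n => hconv n
  have hstep : ∀ k, Monotone fun n => u (n + k) - u n := by
    intro k
    apply monotone_nat_of_le_succ
    intro n
    have h1 := hinc (show n ≤ n + k by omega)
    change u (n + 1) - u n ≤ u (n + k + 1) - u (n + k) at h1
    change u (n + k) - u n ≤ u (n + 1 + k) - u (n + 1)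
    rw [show n + 1 + k = n + k + 1 by omega]
    omega
  intro n
  -- `N = n + da`
  have h1 := hup (n + (da - δ))
  have h2 := hlow (n + da)
  have h3 := hY (n + db)
  rw [show n + db + da = n + da + db by omega] at h3
  rw [show n + (da - δ) + δ = n + da by omega] at h1
  have h4 := hstep da (show n ≤ n + db by omega)
  change u (n + da) - u n ≤ u (n + db + da) - u (n + db) at h4
  rw [show n + db + da = n + da + db by omega] at h4
  have h5 := hm (show n + 1 ≤ n + (da - δ) by omega)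
  omega

/-- **the degree of a constant syzygy on a component** -/
theorem Comp.cut [Infinite K] [CharZero K] (h : Comp J P L) (hν : 1 ≤ ν)
    {F : Fin 3 → Rv ν K} {d : Fin 3 → ℕ} {a b c : Fin 3}
    (hF : ∀ a, (F a).IsHomogeneous (d a)) (hda : 1 ≤ d a) (hac : d a ≤ d c)
    (hF0 : ∀ a, F a ≠ 0) (hFa : F a ∉ P)
    (na : ∀ x, F a * x ∈ J → x ∈ J)
    (nc : ∀ x, F c * x ∈ J ⊔ Ideal.span {F a} → x ∈ J ⊔ Ideal.span {F a})
    (hs1 : Sat (J ⊔ Ideal.span {F a}))
    (hs2 : ∀ k, 1 ≤ k → Sat (J ⊔ Ideal.span {F a} ⊔ Ideal.span {F c ^ k}))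
    (hprim : ∃ k, ∀ n, k ≤ n → ∀ g : Rv ν K, g.IsHomogeneous n →
      g ∈ J ⊔ Ideal.span {F a} ⊔ Ideal.span {F c} ⊔ Ideal.span {F b})
    {v : Fin 3 → RTv ν K} {r N δ : ℕ} (hvt : ∀ a, (v a).IsHomogeneous r)
    (hv : ∀ a, DX (d a) N (v a)) (hvb : XH δ (v b))
    (hrel : C (F a) * v a + C (F b) * v b + C (F c) * v c ∈ JJ P)
    (hO : ∀ j k c, Om v j k c ∈ JJ P) {t : Fin ν → K} {i : Fin ν}
    (ht : lf t ∉ P)
    (nw : ∀ z ∈ L, evt t (v b) * z ∈ TT J L (lf t) → z ∈ TT J L (lf t))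
    (nX : ∀ z ∈ L, X i * z ∈ TT J L (lf t) → z ∈ TT J L (lf t))
    (hsb : sg (Mt i t) (v b) ∉ P) : d a ≤ δ := by
  have hP := h.prime
  have hℓh : (lf t).IsHomogeneous 1 := lf_hom t
  have hℓ0 : lf t ≠ 0 := fun h0 => ht (by rw [h0]; exact P.zero_mem)
  have nℓ : ∀ z ∈ L, lf t * z ∈ J → z ∈ J := fun z hz hx => h.tf ht hz hx
  have hwh : (evt t (v b)).IsHomogeneous δ := evt_XH hvb t
  have hw0 : evt t (v b) ≠ 0 := by
    intro h0
    apply h.ne
    apply nak h.hJ h.hL hℓh le_rfl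
    intro z hz
    apply nw z hz
    rw [h0, zero_mul]
    exact Ideal.zero_mem _
  -- the reference syzygy
  set M := Mt i t with hMdef
  have hM : Skew M := Mt_skew i t
  set s : Fin 3 → Rv ν K := fun a => sg M (v a) with hs
  have hsh : ∀ a, ∃ m, (s a).IsHomogeneous m := by
    intro a
    rcases hv a with h0 | ⟨n, -, hX⟩
    · refine ⟨0, ?_⟩
      have : s a = 0 := by
        rw [hs]
        change sg M (v a) = 0
        rw [h0, map_zero]
      rw [this]
      exact isHomogeneous_zero _ _ _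
    · exact ⟨r + n, sg_hom (hvt a) hX M⟩
  have hrel' : F a * s a + F b * s b + F c * s c ∈ P := by
    have h1 := sg_JJ hM hrel
    rwa [map_add, map_add, map_mul, map_mul, map_mul, sg_C, sg_C, sg_C] at h1
  have hng : ∀ z ∈ L, F c * z ∈ TT J L (F a) → z ∈ TT J L (F a) := fun z hz => h.rreg na nc hz
  have hsat : ∀ {x : Rv ν K}, x ∉ P → ∀ z ∈ L, (∀ k, X k * z ∈ TT J L x) → z ∈ TT J L x :=
    fun hx z hz hm => h.rsat (hF a) hda na hs1 hx hz hm
  obtain ⟨B1, hB1⟩ := h.lower hsh hF hda hac hsb (hsat hsb) hrel' hFa (hF0 b) hng hprim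
  set V := VL J L s b with hVdef
  have hVL : V ≤ L := fun x hx => hx.1
  have hVh : Homog V := VL_homog h.hJ h.hL hsh
  have hpow : ∀ i', ∀ z ∈ L, (X i') ^ r * (evt t (v b) * z) ∈ TT V L (lf t) := by
    intro i' z hz
    have h1 : sg (Mt i' t) (v b) * z ∈ V := by
      refine ⟨L.mul_mem_left _ hz, fun a' => ?_⟩
      have h2 := cross hO hM (Mt_skew i' t) a' b
      have h3 : s a' * (sg (Mt i' t) (v b) * z)
          = s b * (sg (Mt i' t) (v a') * z) - (sg (Mt i' t) (v a') * sg M (v b)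
            - sg (Mt i' t) (v b) * sg M (v a')) * z := by
        rw [hs]
        ring
      rw [h3]
      exact Ideal.sub_mem _ (mul_mem_TT (L.mul_mem_left _ hz)) (le_TT (h.ann _ h2 z hz))
    obtain ⟨y, hy⟩ := Ideal.mem_span_singleton.1 (Sb_sub_Sc i' (v b))
    have h4 := congrArg (evt t) hy
    rw [map_sub, evt_Sb, Sc_hom i' (hvt b), map_mul, map_pow, evt_C, map_mul, evt_gl] at h4
    have h5 : (X i') ^ r * (evt t (v b) * z) = sg (Mt i' t) (v b) * z + lf t * (evt t y * z) := by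
      linear_combination z * h4
    rw [h5]
    exact Ideal.add_mem _ (le_TT h1) (mul_mem_TT (L.mul_mem_left _ hz))
  obtain ⟨B2, hB2⟩ := h.upper hν hVh (le_VL h.JL) hVL hℓh hℓ0 hwh hw0 nℓ nw hpow
  by_contra hcon
  push Not at hcon
  have hTℓL : TT J L (lf t) ≤ L := TT_le h.JL
  have hTℓh : Homog (TT J L (lf t)) := TT_homog h.hJ h.hL hℓh
  have hX0 : (X i : Rv ν K) ≠ 0 := X_ne_zero i
  have c1 : ∀ n, D L J (n + 1) - D L J n = D L (TT J L (lf t)) (n + 1) := fun n =>
    (D_nzd h.JL h.hJ h.hL hℓh hℓ0 nℓ n).symm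
  have hmono : ∀ n, D L J n ≤ D L J (n + 1) := fun n => by
    have h1 := c1 n
    have h2 := D_nonneg hTℓL (n + 1)
    omega
  have hconv : ∀ n, D L J (n + 1) - D L J n ≤ D L J (n + 2) - D L J (n + 1) := fun n => by
    have h1 := c1 n
    have h2 := c1 (n + 1)
    have h3 := D_nzd hTℓL hTℓh h.hL (isHomogeneous_X K i) hX0 nX (n + 1)
    have h4 := D_nonneg (L := L) (TT_le (F := X i) hTℓL) (n + 1 + 1)
    rw [show n + 2 = n + 1 + 1 by omega]
    omega
  have hYa : ∀ n, D L (TT J L (F a)) (n + d a) = D L J (n + d a) - D L J n := fun n =>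
    D_nzd h.JL h.hJ h.hL (hF a) (hF0 a) (fun z _ => na z) n
  have hbd := numeric (u := fun n => D L J n) (Xf := fun n => D L V n)
    (Yf := fun n => D L (TT J L (F a)) n) (δ := δ) (da := d a) (db := d b) (B := B1) (C := B2)
    hmono hconv hYa hB1 hB2 hcon
  exact h.growth (hF a) (hF c) hda (by omega) (hF0 a) (hF0 c) na nc hs2 (B := B1 + B2) hbd (by
    have h1 := hbd 0
    have h2 := hmono 0
    change D L J (0 + 1) - D L J 0 ≤ B1 + B2 at h1
    omega)

end Pool.Agent.H868.TR
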