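import Pool.Agent.H868.TR.Cc

/-!
Torsion-freeness of `A[t] / (J[t] + ℓ A[t])` over `K[x][t]`, and the extension of the ground field.
-/

namespace Pool.Agent.H868.TR

set_option maxHeartbeats 400000
set_option linter.unusedSectionVars false

open MvPolynomial
open Pool.Agent.H868.TS hiding L
open Pool.Agent.TH61.SL (hc comp_mul hc_zero hc_hom comp_self comp_ne)
open H503R3.QCI (Homog NZD Reg homog_span)

universe u

variable {ν : ℕ} {K : Type u} [Field K] {J P A : Ideal (Rv ν K)}

/-- the elements multiplied into `T` by all large monomials -/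
def satI (T : Ideal (Rv ν K)) : Ideal (Rv ν K) where
  carrier := {z | ∃ k : ℕ, ∀ m : Fin ν →₀ ℕ, k ≤ m.degree → monomial m (1 : K) * z ∈ T}
  zero_mem' := ⟨0, fun m _ => by rw [mul_zero]; exact T.zero_mem⟩
  add_mem' := by
    rintro x y ⟨k, hk⟩ ⟨l, hl⟩
    refine ⟨max k l, fun m hm => ?_⟩
    rw [mul_add]
    exact T.add_mem (hk m (le_trans (le_max_left _ _) hm)) (hl m (le_trans (le_max_right _ _) hm))
  smul_mem' := by
    rintro c x ⟨k, hk⟩
    refine ⟨k, fun m hm => ?_⟩
    rw [smul_eq_mul, mul_left_comm]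
    exact T.mul_mem_left _ (hk m hm)

lemma satI_sat (T : Ideal (Rv ν K)) : ∀ s, (∀ j, X j * s ∈ satI T) → s ∈ satI T := by
  intro s h
  choose k hk using h
  refine ⟨(∑ j, k j) + 1, fun m hm => ?_⟩
  obtain ⟨j, hj⟩ : ∃ j, 1 ≤ m j := by
    by_contra hcon
    push Not at hcon
    have h0 : m = 0 := by
      ext j
      have := hcon j
      rw [Finsupp.coe_zero, Pi.zero_apply]
      omega
    rw [h0, map_zero] at hm
    omega
  have hle : Finsupp.single j 1 ≤ m := Finsupp.single_le_iff.2 hj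
  have e : (monomial m (1 : K) : Rv ν K) = monomial (m - Finsupp.single j 1) 1 * X j := by
    rw [X, monomial_mul, one_mul, tsub_add_cancel_of_le hle]
  rw [e, mul_assoc]
  apply hk j
  have h1 := congrArg Finsupp.degree (tsub_add_cancel_of_le hle)
  rw [map_add, Finsupp.degree_single] at h1
  have h2 : k j ≤ ∑ j, k j := Finset.single_le_sum (fun _ _ => Nat.zero_le _) (Finset.mem_univ j)
  omega

lemma le_satI {T : Ideal (Rv ν K)} : T ≤ satI T := fun _ hx => ⟨0, fun _ _ => T.mul_mem_left _ hx⟩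

lemma satI_rel {T : Ideal (Rv ν K)} (hT : ∀ z ∈ A, (∀ k, X k * z ∈ T) → z ∈ T) {z : Rv ν K}
    (hz : z ∈ A) (h : z ∈ satI T) : z ∈ T := by
  obtain ⟨k, hk⟩ := h
  have main : ∀ k : ℕ, (∀ m : Fin ν →₀ ℕ, k ≤ m.degree → monomial m (1 : K) * z ∈ T) → z ∈ T := by
    intro k
    induction k with
    | zero =>
      intro h
      have h1 := h 0 (Nat.zero_le _)
      have h2 : (monomial 0 (1 : K) : Rv ν K) = 1 := rfl
      rwa [h2, one_mul] at h1
    | succ k ih =>
      intro h
      apply ih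
      intro m hm
      apply hT _ (A.mul_mem_left _ hz)
      intro j
      have e : X j * ((monomial m (1 : K) : Rv ν K) * z) = monomial (Finsupp.single j 1 + m) 1 * z := by
        rw [← mul_assoc, X, monomial_mul, one_mul]
      rw [e]
      apply h
      rw [map_add, Finsupp.degree_single]
      omega
  exact main k hk

lemma gl_rel {T : Ideal (Rv ν K)} (hT : ∀ z ∈ A, (∀ k, X k * z ∈ T) → z ∈ T) {Y : RTv ν K}
    (hY : InI A Y) (h : InI T (gl ν K * Y)) : InI T Y := fun m =>
  satI_rel hT (hY m) (mc (satI_sat T) Y (fun m => le_satI (h m)) m)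

/-- the ideal `J[t] + ℓ A[t]` -/
def MT (J A : Ideal (Rv ν K)) (Y : RTv ν K) : Prop := ∃ s, InI A s ∧ InI J (Y - gl ν K * s)

lemma MT.zero : MT J A (0 : RTv ν K) := ⟨0, InI.zero, by rw [mul_zero, sub_zero]; exact InI.zero⟩

lemma MT.add {Y Z : RTv ν K} (h : MT J A Y) (h' : MT J A Z) : MT J A (Y + Z) := by
  obtain ⟨s, hs, h1⟩ := h
  obtain ⟨s', hs', h2⟩ := h'
  refine ⟨s + s', hs.add hs', ?_⟩
  convert h1.add h2 using 1
  ring

lemma MT.sub {Y Z : RTv ν K} (h : MT J A Y) (h' : MT J A Z) : MT J A (Y - Z) := by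
  obtain ⟨s, hs, h1⟩ := h
  obtain ⟨s', hs', h2⟩ := h'
  refine ⟨s - s', hs.sub hs', ?_⟩
  convert h1.sub h2 using 1
  ring

lemma MT.mul_left {Y : RTv ν K} (u : RTv ν K) (h : MT J A Y) : MT J A (u * Y) := by
  obtain ⟨s, hs, h1⟩ := h
  refine ⟨u * s, hs.mul_left _, ?_⟩
  convert h1.mul_left u using 1
  ring

lemma MT.sum {ι : Type*} (S : Finset ι) (f : ι → RTv ν K) (h : ∀ i ∈ S, MT J A (f i)) :
    MT J A (∑ i ∈ S, f i) := by
  classical
  induction S using Finset.induction_on with
  | empty => rw [Finset.sum_empty]; exact MT.zero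
  | insert a S ha ih =>
    rw [Finset.sum_insert ha]
    exact (h a (Finset.mem_insert_self _ _)).add (ih fun i hi => h i (Finset.mem_insert_of_mem hi))

lemma Comp.MT_nzd (h : Comp J P A) {f : Rv ν K} (hf : f ∉ P)
    (hsat : ∀ z ∈ A, (∀ k, X k * z ∈ TT J A f) → z ∈ TT J A f) {Y : RTv ν K} (hY : InI A Y)
    (hm : MT J A (C f * Y)) : MT J A Y := by
  obtain ⟨s, hs, h1⟩ := hm
  have h2 : InI (TT J A f) (gl ν K * s) := by
    intro m
    have h3 := h1 m
    rw [coeff_sub, coeff_C_mul] at h3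
    have e : coeff m (gl ν K * s) = f * coeff m Y - (f * coeff m Y - coeff m (gl ν K * s)) := by
      ring
    rw [e]
    exact Ideal.sub_mem _ (mul_mem_TT (hY m)) (le_TT h3)
  have h3 := gl_rel hsat hs h2
  have h4 : ∀ m, ∃ y ∈ A, coeff m s - f * y ∈ J := fun m => mem_TT.1 (h3 m)
  choose y hy hyJ using h4
  obtain ⟨s', hs'⟩ := exists_coeff s.support y
  have h5 : InI A s' := fun m => by
    rw [hs']
    split_ifs
    · exact hy m
    · exact A.zero_mem
  have h6 : InI J (s - C f * s') := fun m => by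
    rw [coeff_sub, coeff_C_mul, hs']
    split_ifs with h7
    · exact hyJ m
    · rw [notMem_support_iff.1 h7, mul_zero, sub_zero]
      exact J.zero_mem
  refine ⟨s', h5, fun m => ?_⟩
  refine h.tf hf ((hY.sub (h5.mul_left _)) m) ?_
  have h8 := (h1.add (h6.mul_left (gl ν K))) m
  rw [← coeff_C_mul]
  convert h8 using 2
  ring

lemma MT_Sb {i : Fin ν} {Y : RTv ν K} (h : MT J A Y) : InI J (Sb i Y) := by
  obtain ⟨s, -, h1⟩ := h
  have h2 := Sb_inI i h1
  rwa [map_sub, map_mul, Sb_gl, zero_mul, sub_zero] at h2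

lemma ScSb_mem (i : Fin ν) {Y : RTv ν K} (hY : InI A Y) :
    ∃ s, InI A s ∧ Sc i Y - Sb i Y = gl ν K * s := by
  rw [inI_iff_map] at hY
  refine Submodule.span_induction
    (p := fun Y _ => ∃ s, InI A s ∧ Sc i Y - Sb i Y = gl ν K * s) ?_ ?_ ?_ ?_ hY
  · rintro _ ⟨f, hf, rfl⟩
    refine ⟨0, InI.zero, ?_⟩
    change Sc i (C f) - Sb i (C f) = gl ν K * 0
    rw [Sb_C, Sc, eval₂Hom_C, sub_self, mul_zero]
  · exact ⟨0, InI.zero, by rw [map_zero, map_zero, sub_self, mul_zero]⟩
  · rintro x y _ _ ⟨s, hs, h1⟩ ⟨s', hs', h2⟩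
    exact ⟨s + s', hs.add hs', by rw [map_add, map_add]; linear_combination h1 + h2⟩
  · rintro a x hx ⟨s, hs, h1⟩
    obtain ⟨y, hy⟩ := Ideal.mem_span_singleton.1 (Sb_sub_Sc i a)
    have h2 : InI A (Sb i x) := Sb_inI i (inI_iff_map.2 hx)
    refine ⟨Sc i a * s + y * Sb i x, (hs.mul_left _).add (h2.mul_left _), ?_⟩
    rw [smul_eq_mul, map_mul, map_mul]
    linear_combination Sc i a * h1 + Sb i x * hy

lemma MT_of_Sb {i : Fin ν}
    (hi : ∀ Y, InI A Y → MT J A (C (X i) * Y) → MT J A Y) {e : ℕ} {Y : RTv ν K}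
    (hY : Y.IsHomogeneous e) (hYA : InI A Y) (h1 : InI J (Sb i Y)) : MT J A Y := by
  have h2 : MT J A (C (X i) ^ e * Y) := by
    obtain ⟨s, hs, h3⟩ := ScSb_mem i hYA
    refine ⟨s, hs, ?_⟩
    rw [← Sc_hom i hY]
    have e : Sc i Y - gl ν K * s = Sb i Y := by rw [← h3]; ring
    rwa [e]
  clear h1 hY
  induction e with
  | zero => rwa [pow_zero, one_mul] at h2
  | succ e ih =>
    apply ih
    apply hi
    · exact hYA.mul_left _
    · rwa [← mul_assoc, ← pow_succ']

lemma Comp.MT_tf (h : Comp J P A) {i : Fin ν}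
    (hi : ∀ Y, InI A Y → MT J A (C (X i) * Y) → MT J A Y) {u Z : RTv ν K} {e : ℕ}
    (hu : ¬ InI P (Sb i u)) (hZ : Z.IsHomogeneous e) (hZA : InI A Z) (hm : MT J A (u * Z)) :
    MT J A Z := by
  apply MT_of_Sb hi hZ hZA
  have h1 := MT_Sb (i := i) hm
  rw [map_mul] at h1
  have hP := h.prime
  have h0 : InI P (Sb i u * Sb i Z) := fun m => h.JP (h1 m)
  have h2 : InI P (Sb i Z) := h0.or.resolve_left hu
  exact fun m => h.int _ (h2 m) (Sb_inI i hZA m)

lemma Comp.tt_Sb [Infinite K] (h : Comp J P A) {i : Fin ν}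
    (hi : ∀ Y, InI A Y → MT J A (C (X i) * Y) → MT J A Y) {c : Rv ν K} {e : ℕ}
    (hc : c.IsHomogeneous e) (hc0 : c ≠ 0) : ¬ InI P (Sb i (tt c)) := by
  intro hI
  obtain ⟨t0, ht0⟩ : ∃ t, eval t c ≠ 0 := by
    by_contra hcon
    push Not at hcon
    apply hc0
    apply MvPolynomial.funext
    intro t
    rw [hcon t, map_zero]
  apply h.ne
  apply nak h.hJ h.hL (lf_hom t0) le_rfl
  intro z hz
  have h1 : MT J A (C z * tt c) := by
    refine MT_of_Sb hi (e := 0 + e) ((isHomogeneous_C _ _).mul (hc.map _))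
      ((inI_C.2 hz).mul_right _) ?_
    rw [map_mul, Sb_C]
    intro m
    rw [coeff_C_mul, mul_comm]
    exact h.ann _ (hI m) z hz
  obtain ⟨s, hs, h2⟩ := h1
  have h3 := evt_mem h2 t0
  rw [map_sub, map_mul, map_mul, evt_C, evt_tt, evt_gl] at h3
  rw [mem_TT]
  refine ⟨C (eval t0 c)⁻¹ * evt t0 s, A.mul_mem_left _ (evt_mem hs t0), ?_⟩
  have h4 : (C (eval t0 c)⁻¹ : Rv ν K) * C (eval t0 c) = 1 := by
    rw [← C_mul, inv_mul_cancel₀ ht0, C_1]
  have e : z - lf t0 * (C (eval t0 c)⁻¹ * evt t0 s)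
      = C (eval t0 c)⁻¹ * (z * C (eval t0 c) - lf t0 * evt t0 s) := by
    linear_combination (-z) * h4
  rw [e]
  exact J.mul_mem_left _ h3

/-! ### components -/

lemma comp_hmul {u : RTv ν K} {e : ℕ} (hu : u.IsHomogeneous e) (Y : RTv ν K) (n : ℕ) :
    homogeneousComponent (n + e) (u * Y) = u * homogeneousComponent n Y := by
  classical
  conv_lhs => rw [← sum_homogeneousComponent Y]
  rw [Finset.mul_sum, map_sum]
  have h1 : ∀ j, homogeneousComponent (n + e) (u * homogeneousComponent j Y)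
      = if n + e = e + j then u * homogeneousComponent j Y else 0 := fun j =>
    homogeneousComponent_of_mem (hu.mul (homogeneousComponent_isHomogeneous j Y))
  rw [Finset.sum_congr rfl fun j _ => h1 j]
  by_cases hn : n ∈ Finset.range (Y.totalDegree + 1)
  · rw [Finset.sum_eq_single n]
    · rw [if_pos (add_comm _ _)]
    · intro j _ hj
      rw [if_neg (by omega)]
    · intro h
      exact absurd hn h
  · rw [Finset.mem_range] at hn
    rw [homogeneousComponent_eq_zero n Y (by omega), mul_zero]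
    refine Finset.sum_eq_zero fun j hj => ?_
    rw [Finset.mem_range] at hj
    rw [if_neg (by omega)]

lemma comp_hmul_lt {u : RTv ν K} {e : ℕ} (hu : u.IsHomogeneous e) (Y : RTv ν K) {n : ℕ}
    (hn : n < e) : homogeneousComponent n (u * Y) = 0 := by
  classical
  rw [← sum_homogeneousComponent Y, Finset.mul_sum, map_sum]
  refine Finset.sum_eq_zero fun j _ => ?_
  rw [homogeneousComponent_of_mem (hu.mul (homogeneousComponent_isHomogeneous j Y)),
    if_neg (by omega)]

lemma inI_comp {I : Ideal (Rv ν K)} {Y : RTv ν K} (h : InI I Y) (n : ℕ) :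
    InI I (homogeneousComponent n Y) := fun m => by
  rw [coeff_homogeneousComponent]
  split_ifs
  · exact h m
  · exact I.zero_mem

lemma MT_comp {Y : RTv ν K} (h : MT J A Y) (n : ℕ) : MT J A (homogeneousComponent n Y) := by
  obtain ⟨s, hs, h1⟩ := h
  have h2 := inI_comp h1 n
  rw [map_sub] at h2
  rcases n with _ | n
  · rw [comp_hmul_lt gl_hom s (by omega), sub_zero] at h2
    exact ⟨0, InI.zero, by rwa [mul_zero, sub_zero]⟩
  · rw [comp_hmul gl_hom s n] at h2
    exact ⟨_, inI_comp hs n, h2⟩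

/-- **torsion-freeness over `K[t]`** -/
theorem Comp.MT_tt [Infinite K] (h : Comp J P A) {i : Fin ν}
    (hi : ∀ Y, InI A Y → MT J A (C (X i) * Y) → MT J A Y) {c : Rv ν K} (hc0 : c ≠ 0)
    {Z : RTv ν K} (hZA : InI A Z) (hm : MT J A (tt c * Z)) : MT J A Z := by
  classical
  have hex : ∃ e, homogeneousComponent e c ≠ 0 := by
    by_contra hcon
    push Not at hcon
    apply hc0
    rw [← sum_homogeneousComponent c]
    exact Finset.sum_eq_zero fun j _ => hcon j
  set e := Nat.find hex with he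
  have he0 : homogeneousComponent e c ≠ 0 := Nat.find_spec hex
  have hlt : ∀ j, j < e → homogeneousComponent j c = 0 := fun j hj => by
    by_contra hne
    exact Nat.find_min hex hj hne
  have hch : ∀ j, (tt (homogeneousComponent j c) : RTv ν K).IsHomogeneous j := fun j =>
    (homogeneousComponent_isHomogeneous j c).map _
  have main : ∀ n, MT J A (homogeneousComponent n Z) := by
    intro n
    induction n using Nat.strong_induction_on with
    | _ n ih =>
      have h1 := MT_comp hm (n + e)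
      have hdec : tt c * Z = ∑ j ∈ Finset.range (c.totalDegree + 1),
          tt (homogeneousComponent j c) * Z := by
        rw [← Finset.sum_mul, ← map_sum, sum_homogeneousComponent]
      rw [hdec, map_sum] at h1
      have heR : e ∈ Finset.range (c.totalDegree + 1) := by
        rw [Finset.mem_range]
        by_contra hcon
        exact he0 (homogeneousComponent_eq_zero e c (by omega))
      rw [← Finset.add_sum_erase _ _ heR, comp_hmul (hch e)] at h1
      have h2 : MT J A (∑ j ∈ (Finset.range (c.totalDegree + 1)).erase e,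
          homogeneousComponent (n + e) (tt (homogeneousComponent j c) * Z)) := by
        refine MT.sum _ _ fun j hj => ?_
        have hje := (Finset.mem_erase.1 hj).1
        rcases Nat.lt_or_ge j e with h3 | h3
        · rw [hlt j h3, map_zero, zero_mul, map_zero]
          exact MT.zero
        · rcases Nat.lt_or_ge (n + e) j with h4 | h4
          · rw [comp_hmul_lt (hch j) Z h4]
            exact MT.zero
          · have h5 : n + e = (n + e - j) + j := by omega
            rw [h5, comp_hmul (hch j)]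
            exact (ih _ (by omega)).mul_left _
      have h3 := h1.sub h2
      rw [add_sub_cancel_right] at h3
      exact h.MT_tf hi (h.tt_Sb hi (homogeneousComponent_isHomogeneous e c) he0)
        (homogeneousComponent_isHomogeneous n Z) (inI_comp hZA n) h3
  rw [← sum_homogeneousComponent Z]
  exact MT.sum _ _ fun n _ => main n

/-- torsion-freeness for homogeneous elements -/
theorem Comp.MT_u (h : Comp J P A) {i : Fin ν}
    (hi : ∀ Y, InI A Y → MT J A (C (X i) * Y) → MT J A Y) {u Z : RTv ν K} {e : ℕ}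
    (huh : u.IsHomogeneous e) (hu : ¬ InI P (Sb i u)) (hZA : InI A Z) (hm : MT J A (u * Z)) :
    MT J A Z := by
  rw [← sum_homogeneousComponent Z]
  refine MT.sum _ _ fun n _ => ?_
  have h1 := MT_comp hm (n + e)
  rw [comp_hmul huh] at h1
  exact h.MT_tf hi hu (homogeneousComponent_isHomogeneous n Z) (inI_comp hZA n) h1

end Pool.Agent.H868.TR
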