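import Pool.Agent.H868.TR.Dd

/-!
Extension of the ground field to the field of fractions of `K[t]`; the syzygy vanishes modulo
`(ℓ, P)` for every component `P` of a complete intersection.
-/

namespace Pool.Agent.H868.TR

set_option maxHeartbeats 400000
set_option linter.unusedSectionVars false

open MvPolynomial
open Pool.Agent.H868.TS hiding L
open Pool.Agent.TH61.SL (hc comp_mul hc_zero hc_hom comp_self comp_ne)
open H503R3.QCI (Homog NZD Reg homog_span)
open TH130CI (SRegOn sreg_of_reg reg_snoc)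

universe u

variable {ν : ℕ} {K : Type u} [Field K] {J P A : Ideal (Rv ν K)}

variable (ν K) in
/-- the field of fractions of `K[t]` -/
abbrev KK : Type u := Pool.Agent.H868.TS.L ν K

/-- the extension of an ideal -/
noncomputable abbrev ex (I : Ideal (Rv ν K)) : Ideal (Rv ν (KK ν K)) :=
  I.map (map (algebraMap K (KK ν K)) : Rv ν K →+* Rv ν (KK ν K))

lemma tt_inI {I : Ideal (Rv ν K)} {c : Rv ν K} (hc : c ≠ 0) {Y : RTv ν K} (h : InI I (tt c * Y)) :
    InI I Y := by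
  intro m
  by_contra hm
  obtain ⟨φ, hφ, hle⟩ := Submodule.exists_le_ker_of_notMem (p := I.restrictScalars K)
    (v := coeff m Y) hm
  have h1 : Ph φ (tt c * Y) = 0 := by
    ext m'
    rw [coeff_Ph, coeff_zero]
    exact hle (h m')
  rw [Ph_tt_mul] at h1
  have h2 := (mul_eq_zero.1 h1).resolve_left hc
  apply hφ
  have h3 := congrArg (coeff m) h2
  rwa [coeff_Ph, coeff_zero] at h3

lemma ex_eq (I : Ideal (Rv ν K)) : (I.map (C : Rv ν K →+* RTv ν K)).map (Ψ ν K) = ex I := by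
  rw [Ideal.map_map]
  congr 1
  exact RingHom.ext fun x => by rw [RingHom.comp_apply, Ψ_C]

lemma psi_iff {I : Ideal (Rv ν K)} {Z : RTv ν K} : Ψ ν K Z ∈ ex I ↔ InI I Z := by
  rw [← ex_eq]
  constructor
  · intro h
    obtain ⟨c, W, hc, hW, h1⟩ := mem_map_Ψ h
    rw [← Ψ_tt, ← map_mul] at h1
    have h2 := Ψ_inj h1
    rw [← h2, ← inI_iff_map] at hW
    exact tt_inI hc hW
  · intro h
    exact Ideal.mem_map_of_mem _ (inI_iff_map.1 h)

lemma unit_mem {Q : Ideal (Rv ν (KK ν K))} {c : Rv ν K} (hc : c ≠ 0) {z : Rv ν (KK ν K)} :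
    C (aT ν K c) * z ∈ Q ↔ z ∈ Q := by
  constructor
  · intro h
    have h5 : aT ν K c ≠ 0 := by
      rw [Ne, map_eq_zero_iff _ (IsFractionRing.injective (Rv ν K) (KK ν K))]
      exact hc
    have h6 : z = C (aT ν K c)⁻¹ * (C (aT ν K c) * z) := by
      rw [← mul_assoc, ← C_mul, inv_mul_cancel₀ h5, C_1, one_mul]
    rw [h6]
    exact Ideal.mul_mem_left _ _ h
  · exact fun h => Ideal.mul_mem_left _ _ h

lemma clear' (z : Rv ν (KK ν K)) : ∃ (c : Rv ν K) (Z : RTv ν K), c ≠ 0 ∧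
    C (aT ν K c) * z = Ψ ν K Z ∧ ∀ I : Ideal (Rv ν K), z ∈ ex I ↔ InI I Z := by
  obtain ⟨c, Z, hc, h1⟩ := clear z
  refine ⟨c, Z, hc, h1, fun I => ?_⟩
  rw [← unit_mem hc, h1, psi_iff]

lemma homog_ex {I : Ideal (Rv ν K)} (hI : Homog I) : Homog (ex I) := by
  have h1 : I = Ideal.span {z | z ∈ I ∧ ∃ n, z.IsHomogeneous n} := by
    apply le_antisymm
    · intro z hz
      rw [← sum_homogeneousComponent z]
      exact Ideal.sum_mem _ fun n _ => Ideal.subset_span
        ⟨hI z hz n, n, homogeneousComponent_isHomogeneous _ _⟩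
    · rw [Ideal.span_le]
      exact fun z hz => hz.1
  rw [ex, h1, Ideal.map_span]
  apply homog_span
  rintro _ ⟨z, ⟨-, n, hn⟩, rfl⟩
  exact ⟨n, hn.map _⟩

lemma sat_ex {I : Ideal (Rv ν K)} (hI : Sat I) : Sat (ex I) := by
  intro z hz
  obtain ⟨c, Z, hc, h1, h2⟩ := clear' z
  rw [h2]
  intro m
  apply hI
  intro j
  have h3 : Ψ ν K (C (X j) * Z) ∈ ex I := by
    rw [map_mul, Ψ_C, map_X, ← h1]
    have h4 := Ideal.mul_mem_left _ (C (aT ν K c)) (hz j)
    rwa [mul_left_comm] at h4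
  have h4 := psi_iff.1 h3 m
  rwa [coeff_C_mul] at h4

/-- the extension of a component -/
theorem Comp.ext (h : Comp J P A) : Comp (ex J) (ex P) (ex A) := by
  have hPp := h.prime
  have hCp : (P.map (C : Rv ν K →+* RTv ν K)).IsPrime := map_C_prime hPp
  have hdC : ∀ c : Rv ν K, c ≠ 0 → tt c ∉ P.map (C : Rv ν K →+* RTv ν K) := by
    intro c hc hmem
    rw [← inI_iff_map] at hmem
    have h1 : InI P (tt c * 1) := by rwa [mul_one]
    have h2 := tt_inI hc h1 0
    apply hPp.ne_top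
    rw [Ideal.eq_top_iff_one]
    rwa [coeff_zero_one] at h2
  refine ⟨homog_ex h.hJ, homog_ex h.hP, homog_ex h.hL, ?_, Ideal.map_mono h.JP, Ideal.map_mono h.JL,
    ?_, ?_, ?_, ?_, sat_ex h.sat⟩
  · rw [← ex_eq]
    exact prime_map_Ψ hdC
  · intro x hx z hz
    have h1 : x * z ∈ ex P * ex A := Ideal.mul_mem_mul hx hz
    rw [← Ideal.map_mul] at h1
    refine Ideal.map_mono ?_ h1
    rw [Ideal.mul_le]
    exact h.ann
  · intro z hz
    obtain ⟨c, Z, hc, h1, h2⟩ := clear' z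
    rw [h2]
    intro m
    apply h.colon
    intro x hx
    have h3 : Ψ ν K (C x * Z) ∈ ex J := by
      rw [map_mul, Ψ_C, ← h1, mul_left_comm]
      exact Ideal.mul_mem_left _ _ (hz _ (Ideal.mem_map_of_mem _ hx))
    have h4 := psi_iff.1 h3 m
    rwa [coeff_C_mul] at h4
  · intro z hzP hzA
    obtain ⟨c, Z, hc, h1, h2⟩ := clear' z
    rw [h2] at hzP hzA ⊢
    exact fun m => h.int _ (hzP m) (hzA m)
  · intro hle
    apply h.ne
    intro z hz
    have h1 : Ψ ν K (C z) ∈ ex J := by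
      rw [Ψ_C]
      exact hle (Ideal.mem_map_of_mem _ hz)
    have h2 := psi_iff.1 h1
    rwa [inI_C] at h2

/-- the comparison of the two torsion modules -/
lemma Comp.psi_TT [Infinite K] (h : Comp J P A) {i : Fin ν}
    (hi : ∀ Y, InI A Y → MT J A (C (X i) * Y) → MT J A Y) {Z : RTv ν K} (hZ : InI A Z) :
    Ψ ν K Z ∈ TT (ex J) (ex A) (lf (tau ν K)) ↔ MT J A Z := by
  constructor
  · intro hm
    obtain ⟨y, hy, h1⟩ := mem_TT.1 hm
    obtain ⟨c, Y, hc, h2, h3⟩ := clear' y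
    rw [h3] at hy
    apply h.MT_tt hi hc hZ
    refine ⟨Y, hy, psi_iff.1 ?_⟩
    rw [map_sub, map_mul, map_mul, Ψ_tt, Ψ_gl, ← h2]
    have e : C (aT ν K c) * Ψ ν K Z - lf (tau ν K) * (C (aT ν K c) * y)
        = C (aT ν K c) * (Ψ ν K Z - lf (tau ν K) * y) := by ring
    rw [e]
    exact Ideal.mul_mem_left _ _ h1
  · rintro ⟨s, hs, h1⟩
    rw [mem_TT]
    refine ⟨Ψ ν K s, psi_iff.2 hs, ?_⟩
    rw [← Ψ_gl, ← map_mul, ← map_sub]
    exact psi_iff.2 h1

/-- nonzerodivisors -/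
lemma Comp.psi_nzd [Infinite K] (h : Comp J P A) {i : Fin ν}
    (hi : ∀ Y, InI A Y → MT J A (C (X i) * Y) → MT J A Y) {u : RTv ν K}
    (hu : ∀ Z, InI A Z → MT J A (u * Z) → MT J A Z) :
    ∀ z ∈ ex A, Ψ ν K u * z ∈ TT (ex J) (ex A) (lf (tau ν K)) →
      z ∈ TT (ex J) (ex A) (lf (tau ν K)) := by
  intro z hz hm
  obtain ⟨c, Z, hc, h1, h2⟩ := clear' z
  rw [h2] at hz
  rw [← unit_mem hc, h1, h.psi_TT hi hz]
  apply hu Z hz
  rw [← h.psi_TT hi (hz.mul_left _), map_mul, ← h1, mul_left_comm]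
  exact Ideal.mul_mem_left _ _ hm

lemma ρ_Sb {K' : Type*} [Field K'] (φ : K →+* K') (i : Fin ν) (Y : RTv ν K) :
    ρ φ (Sb i Y) = Sb i (ρ φ Y) := by
  classical
  have h : (ρ φ).comp (Sb i) = (Sb i).comp (ρ (ν := ν) φ) := by
    apply MvPolynomial.ringHom_ext
    · intro a
      rw [RingHom.comp_apply, RingHom.comp_apply, Sb_C, ρ_C, Sb_C]
    · intro k
      rw [RingHom.comp_apply, RingHom.comp_apply, ρ_X, Sb_X, Sb_X]
      split_ifs
      · rw [map_neg, map_sum]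
        congr 1
        refine Finset.sum_congr rfl fun j _ => ?_
        rw [map_mul, ρ_C, ρ_X, map_X]
      · rw [map_mul, ρ_C, ρ_X, map_X]
  exact RingHom.congr_fun h Y

/-- forms of large degree -/
lemma prim_ex {I : Ideal (Rv ν K)} {k : ℕ}
    (h : ∀ n, k ≤ n → ∀ g : Rv ν K, g.IsHomogeneous n → g ∈ I) :
    ∀ n, k ≤ n → ∀ g : Rv ν (KK ν K), g.IsHomogeneous n → g ∈ ex I := by
  intro n hn g hg
  rw [g.as_sum]
  refine Ideal.sum_mem _ fun m hm => ?_
  have h1 : m.degree = n := by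
    by_contra hne
    exact (mem_support_iff.1 hm) (hg.coeff_eq_zero hne)
  have h2 : (monomial m (1 : K)).IsHomogeneous n := isHomogeneous_monomial _ h1
  have h3 : map (algebraMap K (KK ν K)) (monomial m (1 : K)) ∈ ex I :=
    Ideal.mem_map_of_mem _ (h n hn _ h2)
  rw [map_monomial, map_one] at h3
  have h4 : (monomial m (coeff m g) : Rv ν (KK ν K)) = C (coeff m g) * monomial m 1 := by
    rw [C_mul_monomial, mul_one]
  rw [h4]
  exact Ideal.mul_mem_left _ _ h3

lemma ex_sup (I : Ideal (Rv ν K)) (f : Rv ν K) :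
    ex (I ⊔ Ideal.span {f}) = ex I ⊔ Ideal.span {map (algebraMap K (KK ν K)) f} := by
  rw [ex, Ideal.map_sup, Ideal.map_span, Set.image_singleton]

/-- **the syzygy vanishes modulo `(ℓ, P)`** -/
theorem comp_main [CharZero K] {m : ℕ} (hm : m + 2 < ν) {f : Fin m → Rv ν K} {e : Fin m → ℕ}
    (hf : ∀ j, (f j).IsHomogeneous (e j)) (he : ∀ j, 1 ≤ e j) (hregf : Reg f)
    (hJf : J = Ideal.span (Set.range f)) (h : Comp J P A)
    {F : Fin 3 → Rv ν K} {d : Fin 3 → ℕ} {N r : ℕ} {v : Fin 3 → RTv ν K}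
    (hF : ∀ a, (F a).IsHomogeneous (d a)) (hd : ∀ a, 1 ≤ d a)
    (hn : ∀ a b c : Fin 3, a ≠ b → a ≠ c → b ≠ c → NZD J (F a) ∧
      NZD (J ⊔ Ideal.span {F a}) (F c) ∧ NZD (J ⊔ Ideal.span {F a} ⊔ Ideal.span {F c}) (F b))
    (hprim : ∀ a b c : Fin 3, a ≠ b → a ≠ c → b ≠ c → ∃ k, ∀ n, k ≤ n → ∀ g : Rv ν K,
      g.IsHomogeneous n → g ∈ J ⊔ Ideal.span {F a} ⊔ Ideal.span {F c} ⊔ Ideal.span {F b})
    (h01 : d 0 ≤ d 1) (h12 : d 1 ≤ d 2) (hN : N < d 0 + d 1)
    (hv : ∀ a, DX (d a) N (v a)) (hvt : ∀ a, (v a).IsHomogeneous r)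
    (hrel : C (F 0) * v 0 + C (F 1) * v 1 + C (F 2) * v 2 ∈ JJ P)
    (hO : ∀ j k c, Om v j k c ∈ JJ P) {i : Fin ν} (hi0 : (X i : Rv ν K) ∉ P) (j : Fin 3) :
    InI P (Sb i (v j)) := by
  classical
  by_contra hj
  have hinf : Infinite K := inferInstance
  have hcL : CharZero (KK ν K) := charZero_of_injective_algebraMap (algebraMap K (KK ν K)).injective
  have hinfL : Infinite (KK ν K) := inferInstance
  have hP := h.prime
  have hs0 : Sat J := h.sat
  -- regular sequences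
  have hF0 : ∀ a, F a ≠ 0 := by
    intro a h0
    obtain ⟨b, c, hab, hac, hbc⟩ : ∃ b c : Fin 3, a ≠ b ∧ a ≠ c ∧ b ≠ c := by
      fin_cases a
      · exact ⟨1, 2, by decide, by decide, by decide⟩
      · exact ⟨0, 2, by decide, by decide, by decide⟩
      · exact ⟨0, 1, by decide, by decide, by decide⟩
    have h1 := (hn a b c hab hac hbc).1 1 (by rw [h0, zero_mul]; exact J.zero_mem)
    apply hP.ne_top
    rw [Ideal.eq_top_iff_one]
    exact h.JP h1
  -- `F a` is not in `P`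
  have hFP : ∀ a, NZD J (F a) → F a ∉ P := by
    intro a hna hmem
    apply h.ne
    intro z hz
    exact hna _ (h.ann _ hmem z hz)
  have hsat1 : ∀ a, NZD J (F a) → Sat (J ⊔ Ideal.span {F a}) := by
    intro a hna
    rw [hJf] at hna ⊢
    exact sat_snoc (by omega) hf he hregf (hF a) (hd a) fun x hx => hna x hx
  obtain ⟨na0, -, -⟩ := hn 0 1 2 (by decide) (by decide) (by decide)
  have hi : ∀ Y, InI A Y → MT J A (C (X i) * Y) → MT J A Y := fun Y hY hm =>
    h.MT_nzd hi0 (fun z hz hk => h.rsat (hF 0) (hd 0) na0 (hsat1 0 na0) hi0 hz hk)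
      hY hm
  set F' : Fin 3 → Rv ν (KK ν K) := fun a => map (algebraMap K (KK ν K)) (F a) with hF'
  have hF'h : ∀ a, (F' a).IsHomogeneous (d a) := fun a => (hF a).map _
  have hF'0 : ∀ a, F' a ≠ 0 := by
    intro a h0
    apply hF0 a
    apply map_injective _ (algebraMap K (KK ν K)).injective
    rw [map_zero]
    exact h0
  have hrel' := ρ_JJ (algebraMap K (KK ν K)) hrel
  rw [map_add, map_add, map_mul, map_mul, map_mul, ρ_C, ρ_C, ρ_C] at hrel'
  have hO' : ∀ j k c, Om (fun a => ρ (algebraMap K (KK ν K)) (v a)) j k c ∈ JJ (ex P) := by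
    intro j k c
    rw [← ρ_Om]
    exact ρ_JJ _ (hO j k c)
  have ht : lf (tau ν K) ∉ ex P := by
    rw [← Ψ_gl, psi_iff]
    intro h1
    have h2 := h1.pderiv i
    rw [pderiv_gl, inI_C] at h2
    exact hi0 h2
  have hsb : sg (Mt i (tau ν K)) (ρ (algebraMap K (KK ν K)) (v j)) ∉ ex P := by
    rw [← evt_Sb, ← ρ_Sb, evt_tau, psi_iff]
    exact hj
  have nX : ∀ z ∈ ex A, X i * z ∈ TT (ex J) (ex A) (lf (tau ν K)) →
      z ∈ TT (ex J) (ex A) (lf (tau ν K)) := by
    have h1 := h.psi_nzd hi (u := C (X i)) hi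
    rwa [Ψ_C, map_X] at h1
  have nw : ∀ z ∈ ex A, evt (tau ν K) (ρ (algebraMap K (KK ν K)) (v j)) * z
      ∈ TT (ex J) (ex A) (lf (tau ν K)) → z ∈ TT (ex J) (ex A) (lf (tau ν K)) := by
    rw [evt_tau]
    exact h.psi_nzd hi fun Z hZ hm => h.MT_u hi (hvt j) hj hZ hm
  -- the degree of `v j`
  obtain ⟨n, hn', hX⟩ : ∃ n, d j + n = N ∧ XH n (v j) := by
    rcases hv j with h0 | h1
    · exact absurd (by rw [h0, map_zero]; exact InI.zero) hj
    · exact h1
  have key : ∀ a c : Fin 3, a ≠ j → a ≠ c → j ≠ c → d a ≤ d c →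
      (C (F' a) * ρ (algebraMap K (KK ν K)) (v a) + C (F' j) * ρ (algebraMap K (KK ν K)) (v j)
        + C (F' c) * ρ (algebraMap K (KK ν K)) (v c) ∈ JJ (ex P)) → d a ≤ n := by
    intro a c haj hac hjc hle hrel2
    obtain ⟨na, nc, nb⟩ := hn a j c haj hac hjc
    have na' := TH130CI.nzd_map (L := KK ν K) na
    have nc' := TH130CI.nzd_map (L := KK ν K) nc
    rw [Ideal.map_sup, Ideal.map_span, Set.image_singleton] at nc'
    have hFa' : F' a ∉ ex P := by
      have h1 : F' a = Ψ ν K (C (F a)) := by rw [Ψ_C]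
      rw [h1, psi_iff, inI_C]
      exact hFP a na
    have hs1 : Sat (ex J ⊔ Ideal.span {F' a}) := by
      rw [← ex_sup]
      exact sat_ex (hsat1 a na)
    have hs2 : ∀ k, 1 ≤ k → Sat (ex J ⊔ Ideal.span {F' a} ⊔ Ideal.span {F' c ^ k}) := by
      intro k hk
      have h1 : F' c ^ k = map (algebraMap K (KK ν K)) (F c ^ k) := by rw [map_pow]
      rw [h1, ← ex_sup, ← ex_sup]
      apply sat_ex
      rw [hJf]
      rw [hJf] at na nc
      refine sat_snoc2 (by omega) hf he hregf (hF a) (hd a) ((hF c).pow k) (Nat.mul_pos (hd c) hk)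
        na ?_
      clear h1 hk
      induction k with
      | zero => intro x hx; rwa [pow_zero, one_mul] at hx
      | succ k ih =>
        intro x hx
        apply ih
        apply nc
        rwa [← mul_assoc, ← pow_succ']
    have hpr : ∃ k, ∀ n, k ≤ n → ∀ g : Rv ν (KK ν K), g.IsHomogeneous n →
        g ∈ ex J ⊔ Ideal.span {F' a} ⊔ Ideal.span {F' c} ⊔ Ideal.span {F' j} := by
      obtain ⟨k, hk⟩ := hprim a j c haj hac hjc
      refine ⟨k, ?_⟩
      rw [← ex_sup, ← ex_sup, ← ex_sup]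
      exact prim_ex hk
    exact h.ext.cut (by omega) hF'h (hd a) hle hF'0 hFa' na'
      nc' hs1 hs2 hpr
      (v := fun a => ρ (algebraMap K (KK ν K)) (v a)) (r := r) (N := N)
      (fun a => ρ_hom _ (hvt a)) (fun a => ρ_DX _ (hv a)) (ρ_XH _ hX) hrel2 hO' ht nw nX hsb
  fin_cases j
  · have h1 := key 1 2 (by decide) (by decide) (by decide) h12 (by
      convert hrel' using 1
      change _ + C (F' 0) * ρ (algebraMap K (KK ν K)) (v 0) + _ = _
      ring)
    have h2 : d 0 + n = N := hn'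
    omega
  · have h1 := key 0 2 (by decide) (by decide) (by decide) (by omega) hrel'
    have h2 : d 1 + n = N := hn'
    omega
  · have h1 := key 0 1 (by decide) (by decide) (by decide) h01 (by
      convert hrel' using 1
      change _ + C (F' 2) * ρ (algebraMap K (KK ν K)) (v 2) + _ = _
      ring)
    have h2 : d 2 + n = N := hn'
    omega

end Pool.Agent.H868.TR
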