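import Pool.Agent.H868.TR.Ee
import Mathlib.RingTheory.Ideal.MinimalPrime.Noetherian

/-!
Radical complete intersections: the syzygy vanishes modulo `(ℓ, J)`.
-/

namespace Pool.Agent.H868.TR

set_option maxHeartbeats 400000
set_option linter.unusedSectionVars false

open MvPolynomial
open Pool.Agent.H868.TS hiding L
open Pool.Agent.TH61.SL (hc comp_mul hc_zero hc_hom comp_self comp_ne)
open H503R3.QCI (Homog NZD Reg homog_span)
open TH130CI (SRegOn sreg_of_reg reg_snoc)

universe u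

variable {ν : ℕ} {K : Type u} [Field K] {J P : Ideal (Rv ν K)}

lemma minprime_homog (hJ : Homog J) (hP : P ∈ J.minimalPrimes) : Homog P := by
  let _ : GradedAlgebra (homogeneousSubmodule (Fin ν) K) := MvPolynomial.gradedAlgebra
  have hPp : P.IsPrime := hP.1.1
  have h1 := Ideal.IsPrime.homogeneousCore (𝒜 := homogeneousSubmodule (Fin ν) K) hPp
  have h2 : (P.homogeneousCore (homogeneousSubmodule (Fin ν) K)).toIdeal ≤ P :=
    Ideal.toIdeal_homogeneousCore_le _ _
  have h3 : J ≤ (P.homogeneousCore (homogeneousSubmodule (Fin ν) K)).toIdeal := by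
    intro x hx
    rw [← sum_homogeneousComponent x]
    refine Ideal.sum_mem _ fun n _ => ?_
    exact Ideal.mem_homogeneousCore_of_homogeneous_of_mem
      ⟨n, homogeneousComponent_isHomogeneous n x⟩ (hP.1.2 (hJ x hx n))
  have h4 : P ≤ (P.homogeneousCore (homogeneousSubmodule (Fin ν) K)).toIdeal := hP.2 ⟨h1, h3⟩ h2
  have h5 : P = Ideal.span {z | z ∈ P ∧ ∃ n, z.IsHomogeneous n} := by
    apply le_antisymm
    · refine h4.trans (Ideal.span_mono ?_)
      rintro _ ⟨⟨z, n, hn⟩, hz, rfl⟩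
      exact ⟨hz, n, hn⟩
    · rw [Ideal.span_le]
      exact fun z hz => hz.1
  rw [h5]
  apply homog_span
  rintro z ⟨-, n, hn⟩
  exact ⟨n, hn⟩

/-- the elements annihilated by `P` modulo `J` -/
def an (J P : Ideal (Rv ν K)) : Ideal (Rv ν K) where
  carrier := {z | ∀ x ∈ P, x * z ∈ J}
  zero_mem' := fun _ _ => by rw [mul_zero]; exact J.zero_mem
  add_mem' := fun ha hb x hx => by rw [mul_add]; exact J.add_mem (ha x hx) (hb x hx)
  smul_mem' := fun c z hz x hx => by
    rw [smul_eq_mul, mul_left_comm]; exact J.mul_mem_left _ (hz x hx)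

lemma an_homog (hJ : Homog J) (hP : Homog P) : Homog (an J P) := by
  intro z hz n x hx
  rw [← sum_homogeneousComponent x, Finset.sum_mul]
  refine J.sum_mem fun k _ => ?_
  have h1 := hJ _ (hz _ (hP x hx k)) (n + k)
  rw [mul_comm, comp_mul (homogeneousComponent_isHomogeneous k x), hc, if_pos (by omega),
    Nat.add_sub_cancel] at h1
  rw [mul_comm]
  exact h1

lemma an_not_le (hR : J.IsRadical) (hP : P ∈ J.minimalPrimes) : ¬ an J P ≤ P := by
  classical
  intro hle
  have hfin := Ideal.finite_minimalPrimes_of_isNoetherianRing (Rv ν K) J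
  have h1 : (hfin.toFinset.erase P).inf id ≤ an J P := by
    intro z hz x hx
    have h2 : x * z ∈ sInf J.minimalPrimes := by
      rw [Ideal.mem_sInf]
      intro Q hQ
      by_cases h : Q = P
      · subst h
        exact Q.mul_mem_right _ hx
      · have h3 : (hfin.toFinset.erase P).inf id ≤ Q := by
          refine Finset.inf_le (f := id) ?_
          rw [Finset.mem_erase, Set.Finite.mem_toFinset]
          exact ⟨h, hQ⟩
        exact Q.mul_mem_left _ (h3 hz)
    rwa [Ideal.sInf_minimalPrimes, hR.radical] at h2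
  obtain ⟨Q, hQ, hQP⟩ := (Ideal.IsPrime.inf_le' hP.1.1).1 (h1.trans hle)
  rw [Finset.mem_erase, Set.Finite.mem_toFinset] at hQ
  have h4 : P ≤ Q := hP.2 ⟨hQ.2.1.1, hQ.2.1.2⟩ hQP
  exact hQ.1 (le_antisymm hQP h4)

lemma comp_of_min (hR : J.IsRadical) (hJ : Homog J) (hs : Sat J) (hP : P ∈ J.minimalPrimes) :
    Comp J P (an J P) where
  hJ := hJ
  hP := minprime_homog hJ hP
  hL := an_homog hJ (minprime_homog hJ hP)
  prime := hP.1.1
  JP := hP.1.2
  JL := fun _ hz _ _ => J.mul_mem_left _ hz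
  ann := fun x hx _ hz => hz x hx
  colon := fun _ h => h
  int := fun z hzP hzA => hR ⟨2, by rw [pow_two]; exact hzA z hzP⟩
  ne := fun hle => an_not_le hR hP (hle.trans hP.1.2)
  sat := hs

/-- **the syzygy vanishes modulo `(ℓ, J)`** -/
theorem rad_main [CharZero K] {m : ℕ} (hm : m + 2 < ν) {f : Fin m → Rv ν K} {e : Fin m → ℕ}
    (hf : ∀ j, (f j).IsHomogeneous (e j)) (he : ∀ j, 1 ≤ e j) (hregf : Reg f)
    (hJf : J = Ideal.span (Set.range f)) (hR : J.IsRadical)
    {F : Fin 3 → Rv ν K} {d : Fin 3 → ℕ} {N r : ℕ} {v : Fin 3 → RTv ν K}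
    (hF : ∀ a, (F a).IsHomogeneous (d a)) (hd : ∀ a, 1 ≤ d a)
    (hn : RegMod J F)
    (hprim : ∀ a b c : Fin 3, a ≠ b → a ≠ c → b ≠ c → ∃ k, ∀ n, k ≤ n → ∀ g : Rv ν K,
      g.IsHomogeneous n → g ∈ J ⊔ Ideal.span {F a} ⊔ Ideal.span {F c} ⊔ Ideal.span {F b})
    (h01 : d 0 ≤ d 1) (h12 : d 1 ≤ d 2) (hN : N < d 0 + d 1)
    (hv : ∀ a, DX (d a) N (v a)) (hvt : ∀ a, (v a).IsHomogeneous r)
    (hrel : C (F 0) * v 0 + C (F 1) * v 1 + C (F 2) * v 2 ∈ JJ J)
    (hO : ∀ j k c, Om v j k c ∈ JJ J) (j : Fin 3) : v j ∈ JJ J := by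
  classical
  by_contra hvj
  have hinf : Infinite K := inferInstance
  have hs0 : Sat J := by
    rw [hJf]
    exact sat_ci (by omega) hf he hregf
  have hJh : Homog J := by
    rw [hJf]
    exact homog_span (by rintro _ ⟨j, rfl⟩; exact ⟨e j, hf j⟩)
  obtain ⟨na0, -, -⟩ := hn 0 1 2 (by decide) (by decide) (by decide)
  have hsat0 : Sat (J ⊔ Ideal.span {F 0}) := by
    rw [hJf] at na0 ⊢
    exact sat_snoc (by omega) hf he hregf (hF 0) (hd 0) na0
  -- each component
  have key : ∀ P ∈ J.minimalPrimes, ∀ z ∈ an J P, C z * v j ∈ JJ J := by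
    intro P hP z hz
    have h := comp_of_min hR hJh hs0 hP
    obtain ⟨i, hi0⟩ : ∃ i, (X i : Rv ν K) ∉ P := by
      by_contra hcon
      push Not at hcon
      apply h.ne
      intro z hz
      apply hs0
      intro k
      exact h.ann _ (hcon k) z hz
    have h1 := comp_main hm hf he hregf hJf h hF hd hn hprim h01 h12 hN hv hvt
      (JJ_mono h.JP hrel) (fun j k c => JJ_mono h.JP (hO j k c)) hi0 j
    have hi : ∀ Y, InI (an J P) Y → MT J (an J P) (C (X i) * Y) → MT J (an J P) Y :=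
      fun Y hY hm' => h.MT_nzd hi0 (fun z hz hk => h.rsat (hF 0) (hd 0) na0 hsat0 hi0 hz hk) hY hm'
    have h2 : MT J (an J P) (C z * v j) := by
      refine MT_of_Sb hi (e := 0 + r) ((isHomogeneous_C _ _).mul (hvt j))
        ((inI_C.2 hz).mul_right _) ?_
      rw [map_mul, Sb_C]
      intro m
      rw [coeff_C_mul, mul_comm]
      exact h.ann _ (h1 m) z hz
    obtain ⟨s, -, h3⟩ := h2
    exact mem_JJ.2 ⟨s, h3⟩
  have hz : ∀ P : J.minimalPrimes, ∃ (z : Rv ν K) (k : ℕ), z ∈ an J P.1 ∧ z.IsHomogeneous k ∧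
      z ∉ P.1 := by
    intro P
    by_contra hcon
    push Not at hcon
    exact an_not_le hR P.2 (homog_le (an_homog hJh (minprime_homog hJh P.2))
      fun n z hz hzn => hcon z n hz hzn)
  choose z k hzA hzh hzP using hz
  have hfin := Ideal.finite_minimalPrimes_of_isNoetherianRing (Rv ν K) J
  have hfty : Fintype J.minimalPrimes := hfin.fintype
  obtain ⟨D, hD⟩ : ∃ D, D = 1 + ∑ P : J.minimalPrimes, k P := ⟨_, rfl⟩
  have hkD : ∀ P, k P ≤ D := fun P => by
    have : k P ≤ ∑ P : J.minimalPrimes, k P :=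
      Finset.single_le_sum (fun _ _ => Nat.zero_le _) (Finset.mem_univ P)
    omega
  let U : Submodule K (Rv ν K) :=
    { carrier := {x | C x * v j ∈ JJ J ∧ x.IsHomogeneous D}
      zero_mem' := ⟨by rw [C_0, zero_mul]; exact (JJ J).zero_mem, isHomogeneous_zero _ _ _⟩
      add_mem' := fun hx hy => ⟨by rw [C_add, add_mul]; exact (JJ J).add_mem hx.1 hy.1,
        hx.2.add hy.2⟩
      smul_mem' := fun a x hx => ⟨by
        rw [smul_eq_C_mul, C_mul, mul_assoc]
        exact (JJ J).mul_mem_left _ hx.1, by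
        rw [smul_eq_C_mul]
        exact hx.2.C_mul a⟩ }
  have hU : ∀ w, (∀ u ∈ U, u * w ∈ J) → w ∈ J := by
    intro w hw
    have h1 : w ∈ sInf J.minimalPrimes := by
      rw [Ideal.mem_sInf]
      intro P hP
      have h2 : z ⟨P, hP⟩ * w ∈ J := by
        apply sat_pow hs0 (D - k ⟨P, hP⟩)
        intro g hg
        have h3 := hw (g * z ⟨P, hP⟩) ⟨by
          rw [C_mul, mul_assoc]
          exact (JJ J).mul_mem_left _ (key P hP _ (hzA ⟨P, hP⟩)), by
          have h4 := hg.mul (hzh ⟨P, hP⟩)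
          rwa [Nat.sub_add_cancel (hkD _)] at h4⟩
        rwa [mul_assoc] at h3
      exact ((hP.1.1).mem_or_mem (hP.1.2 h2)).resolve_left (hzP ⟨P, hP⟩)
    rwa [Ideal.sInf_minimalPrimes, hR.radical] at h1
  obtain ⟨y, hyU, hyn, -⟩ := exists_nzd (J := J) (U := U) (H := ⊥) hU (by
    intro hle
    apply hvj
    have h1 : (1 : Rv ν K) ∈ J := by
      apply hU
      intro u hu
      have h2 : u = 0 := hle hu
      rw [h2, zero_mul]
      exact J.zero_mem
    apply JJ_of_inI
    intro m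
    have h2 := J.mul_mem_left (coeff m (v j)) h1
    rwa [mul_one] at h2)
  apply hvj
  refine JJ_nzd (f := y) hyn ?_ hyU.1
  rw [hJf] at hyn ⊢
  exact sat_snoc (by omega) hf he hregf hyU.2 (by omega) hyn

end Pool.Agent.H868.TR
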