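import Pool.Agent.H868.TR.Ff

/-!
Complete intersections in `m + 3` variables, the first `m` generators of which are products of forms such
that all choices of factors generate radical ideals: the vanishing of the syzygy.
-/

namespace Pool.Agent.H868.TR

set_option maxHeartbeats 400000
set_option linter.unusedSectionVars false

open MvPolynomial
open Pool.Agent.H868.TS hiding L
open Pool.Agent.H868.TP hiding all_aux
open Pool.Agent.W515.SLP (Deg AnnP annP_of_homog annP_of_gt)
open Pool.Agent.TH61.SL (hc comp_mul hc_zero hc_hom comp_self comp_ne)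
open H503R3.QCI (Homog NZD Reg homog_span)
open TH130CI (gor mem_gor SRegOn sreg_of_reg surj_of_inj ci_gor' span_insert')

universe u

section main

variable {K : Type u} [Field K] {m : ℕ}

/-- the forms of large degree -/
lemma prim_of_ci {f : Fin (m + 3) → Rv (m + 3) K} {d : Fin (m + 3) → ℕ}
    (hf : ∀ i, (f i).IsHomogeneous (d i)) (hd : ∀ i, 1 ≤ d i) (hreg : Reg f)
    (σ : Equiv.Perm (Fin 3)) (a b c : Fin 3) (hab : a ≠ b) (hac : a ≠ c) (hbc : b ≠ c) :
    ∃ k, ∀ n, k ≤ n → ∀ g : Rv (m + 3) K, g.IsHomogeneous n →
      g ∈ PP f ⊔ Ideal.span {f (kk (σ a))} ⊔ Ideal.span {f (kk (σ c))}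
        ⊔ Ideal.span {f (kk (σ b))} := by
  classical
  obtain ⟨φ, hφ, hI⟩ := ci_gor' hf hd hreg
  refine ⟨∑ j, (d j - 1) + 1, fun n hn g hg => ?_⟩
  have h1 : g ∈ gor φ := annP_of_gt hφ (by omega) hg
  rw [← hI, I_eq] at h1
  refine (sup_le ?_ ?_ : PP f ⊔ Ideal.span (Set.range fun a : Fin 3 => f (kk a)) ≤ _) h1
  · exact le_sup_left.trans (le_sup_left.trans le_sup_left)
  · rw [Ideal.span_le]
    rintro _ ⟨a', rfl⟩
    obtain ⟨a'', rfl⟩ := σ.surjective a'
    have h3 : a'' = a ∨ a'' = b ∨ a'' = c := by
      fin_cases a <;> fin_cases b <;> fin_cases c <;> fin_cases a'' <;> simp_all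
    rcases h3 with rfl | rfl | rfl
    · exact Ideal.mem_sup_left (Ideal.mem_sup_left (Ideal.mem_sup_right
        (Ideal.mem_span_singleton_self _)))
    · exact Ideal.mem_sup_right (Ideal.mem_span_singleton_self _)
    · exact Ideal.mem_sup_left (Ideal.mem_sup_right (Ideal.mem_span_singleton_self _))

/-- radical ideals -/
theorem base_case [CharZero K] {f : Fin (m + 3) → Rv (m + 3) K} {d : Fin (m + 3) → ℕ}
    (hf : ∀ i, (f i).IsHomogeneous (d i)) (hd : ∀ i, 1 ≤ d i) (hreg : Reg f)
    (hR : (PP f).IsRadical)
    {σ : Equiv.Perm (Fin 3)} {N r : ℕ} {v : Fin 3 → RTv (m + 3) K}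
    (h01 : d (kk (σ 0)) ≤ d (kk (σ 1))) (h12 : d (kk (σ 1)) ≤ d (kk (σ 2)))
    (hN : N < d (kk (σ 0)) + d (kk (σ 1)))
    (hv : ∀ a, DX (d (kk (σ a))) N (v a)) (hvt : ∀ a, (v a).IsHomogeneous r)
    (hrel : C (f (kk (σ 0))) * v 0 + C (f (kk (σ 1))) * v 1 + C (f (kk (σ 2))) * v 2 ∈ JJ (PP f))
    (hO : ∀ j k c, Om v j k c ∈ JJ (PP f)) (j : Fin 3) : v j ∈ JJ (PP f) := by
  have hn := regMod hf hd hreg
  exact rad_main (F := fun a => f (kk (σ a))) (d := fun a => d (kk (σ a))) (by omega)
    (fun j => hf (ii j)) (fun j => hd _) (reg_ii hreg) PP_eq hR (fun a => hf _) (fun a => hd _)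
    (fun a b c hab hac hbc => hn (σ a) (σ b) (σ c) (σ.injective.ne hab) (σ.injective.ne hac)
      (σ.injective.ne hbc)) (prim_of_ci hf hd hreg σ) h01 h12 hN hv hvt hrel hO j

/-- **the syzygy vanishes, given that the Wronskians vanish** -/
theorem all_aux [CharZero K] (n : ℕ) : ∀ (p : Fin m → List (Rv (m + 3) K)),
    (∑ j, (p j).length ≤ n) → ∀ {f : Fin (m + 3) → Rv (m + 3) K} {d : Fin (m + 3) → ℕ},
    (∀ i, (f i).IsHomogeneous (d i)) → (∀ i, 1 ≤ d i) → Reg f →
    (∀ j, f (ii j) = (p j).prod) →
    (∀ κ : Fin m → Rv (m + 3) K, (∀ j, κ j ∈ p j) → (Ideal.span (Set.range κ)).IsRadical) →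
    (∀ j, ∀ x ∈ p j, ¬ IsUnit x) →
    ∀ {σ : Equiv.Perm (Fin 3)} {N r : ℕ} {v : Fin 3 → RTv (m + 3) K},
    d (kk (σ 0)) ≤ d (kk (σ 1)) → d (kk (σ 1)) ≤ d (kk (σ 2)) →
    N < d (kk (σ 0)) + d (kk (σ 1)) →
    2 * N + 1 ≤ d (kk (σ 0)) + d (kk (σ 1)) + d (kk (σ 2)) →
    (∀ a, DX (d (kk (σ a))) N (v a)) → (∀ a, (v a).IsHomogeneous r) →
    C (f (kk (σ 0))) * v 0 + C (f (kk (σ 1))) * v 1 + C (f (kk (σ 2))) * v 2 ∈ JJ (PP f) →
    (∀ j k c, Om v j k c ∈ JJ (PP f)) → ∀ j, v j ∈ JJ (PP f) := by
  classical
  induction n with
  | zero =>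
    intro p hlen f d hf hd hreg hp hκ hnu σ N r v h01 h12 hN hN2 hv hvt hrel hO j
    have hlj : ∀ j, (p j).length = 0 := by
      intro j
      have h1 := Finset.single_le_sum (f := fun j => (p j).length) (fun _ _ => Nat.zero_le _)
        (Finset.mem_univ j)
      have h2 : (p j).length ≤ ∑ j, (p j).length := h1
      omega
    have hPp : (PP f).IsRadical := by
      rw [PP_eq]
      apply hκ
      intro j
      exfalso
      have h1 := hp j
      rw [List.length_eq_zero_iff.1 (hlj j), List.prod_nil] at h1
      have h2 := hf (ii j)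
      rw [h1] at h2
      have h3 := h2.inj_right (isHomogeneous_one _ _) one_ne_zero
      have := hd (ii j)
      omega
    exact base_case hf hd hreg hPp h01 h12 hN hv hvt hrel hO j
  | succ n ih =>
    intro p hlen f d hf hd hreg hp hκ hnu σ N r v h01 h12 hN hN2 hv hvt hrel hO j
    have hs := sreg_of_reg hf hd hreg
    have hne : ∀ j, p j ≠ [] := by
      intro j h0
      have h1 := hp j
      rw [h0, List.prod_nil] at h1
      have h2 := hf (ii j)
      rw [h1] at h2
      have h3 := h2.inj_right (isHomogeneous_one _ _) one_ne_zero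
      have := hd (ii j)
      omega
    by_cases hlong : ∃ j0, 2 ≤ (p j0).length
    · obtain ⟨j0, hj0⟩ := hlong
      obtain ⟨a, l, hal⟩ : ∃ a l, p j0 = a :: l := by
        rcases hp0 : p j0 with _ | ⟨a, l⟩
        · exact absurd hp0 (hne j0)
        · exact ⟨a, l, rfl⟩
      have hl1 : 1 ≤ l.length := by
        rw [hal, List.length_cons] at hj0
        omega
      set q := l.prod with hq
      have hfa : f (ii j0) = a * q := by rw [hp j0, hal, List.prod_cons]
      have hf0 : f (ii j0) ≠ 0 := ne_zero_of_sreg hs _
      have ha0 : a ≠ 0 := by rintro rfl; rw [zero_mul] at hfa; exact hf0 hfa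
      have hq0 : q ≠ 0 := by intro h; rw [h, mul_zero] at hfa; exact hf0 hfa
      have hh1 := Pool.Agent.Chud.homog_of_dvd (hf (ii j0)) hf0 (Dvd.intro _ hfa.symm)
      have hh2 := Pool.Agent.Chud.homog_of_dvd (hf (ii j0)) hf0 (Dvd.intro_left _ hfa.symm)
      have hdeg := (hf (ii j0)).totalDegree hf0
      rw [hfa, totalDegree_mul_of_isDomain ha0 hq0] at hdeg
      -- the factors are not constant
      have hpos : ∀ x ∈ p j0, x ≠ 0 → 1 ≤ x.totalDegree := by
        intro x hx hx0
        by_contra hcon
        have h1 := totalDegree_eq_zero_iff_eq_C.1 (by omega : x.totalDegree = 0)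
        apply hnu j0 x hx
        have h3 : coeff 0 x ≠ 0 := by
          intro h0
          rw [h0, C_0] at h1
          exact hx0 h1
        rw [h1]
        exact (isUnit_iff_ne_zero.2 h3).map C
      have hda : 1 ≤ a.totalDegree := hpos a (by rw [hal]; exact List.mem_cons_self) ha0
      have hdq : 1 ≤ q.totalDegree := by
        obtain ⟨b, t, hbt⟩ : ∃ b t, l = b :: t := by
          rcases hl0 : l with _ | ⟨b, t⟩
          · rw [hl0] at hl1
            simp at hl1
          · exact ⟨b, t, rfl⟩
        have hqb : q = b * t.prod := by rw [hq, hbt, List.prod_cons]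
        have hb0 : b ≠ 0 := by rintro rfl; rw [zero_mul] at hqb; exact hq0 hqb
        have ht0 : t.prod ≠ 0 := by intro h; rw [h, mul_zero] at hqb; exact hq0 hqb
        rw [hqb, totalDegree_mul_of_isDomain hb0 ht0]
        have := hpos b (by rw [hal, hbt]; exact List.mem_cons_of_mem _ List.mem_cons_self) hb0
        omega
      -- the two smaller complete intersections
      set f1 := Function.update f (ii j0) a with hf1
      set f2 := Function.update f (ii j0) q with hf2
      set d1 := Function.update d (ii j0) a.totalDegree with hd1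
      set d2 := Function.update d (ii j0) q.totalDegree with hd2
      have hs1 : SRegOn Finset.univ f1 := sreg_update hs hfa
      have hs2 : SRegOn Finset.univ f2 := sreg_update hs (by rw [hfa, mul_comm])
      have hf1h : ∀ i, (f1 i).IsHomogeneous (d1 i) := by
        intro i
        by_cases hi : i = ii j0
        · rw [hi, hf1, hd1, Function.update_self, Function.update_self]
          exact hh1
        · rw [hf1, hd1, Function.update_of_ne hi, Function.update_of_ne hi]
          exact hf i
      have hf2h : ∀ i, (f2 i).IsHomogeneous (d2 i) := by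
        intro i
        by_cases hi : i = ii j0
        · rw [hi, hf2, hd2, Function.update_self, Function.update_self]
          exact hh2
        · rw [hf2, hd2, Function.update_of_ne hi, Function.update_of_ne hi]
          exact hf i
      have hd1p : ∀ i, 1 ≤ d1 i := by
        intro i
        by_cases hi : i = ii j0
        · rw [hi, hd1, Function.update_self]
          exact hda
        · rw [hd1, Function.update_of_ne hi]
          exact hd i
      have hd2p : ∀ i, 1 ≤ d2 i := by
        intro i
        by_cases hi : i = ii j0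
        · rw [hi, hd2, Function.update_self]
          exact hdq
        · rw [hd2, Function.update_of_ne hi]
          exact hd i
      have hk1 : ∀ a, f1 (kk a) = f (kk a) := fun a => Function.update_of_ne (kk_ne a j0) _ _
      have hk2 : ∀ a, f2 (kk a) = f (kk a) := fun a => Function.update_of_ne (kk_ne a j0) _ _
      have hdk1 : ∀ a, d1 (kk a) = d (kk a) := fun a => Function.update_of_ne (kk_ne a j0) _ _
      have hdk2 : ∀ a, d2 (kk a) = d (kk a) := fun a => Function.update_of_ne (kk_ne a j0) _ _
      have hreg1 := reg_of_sreg hs1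
      have hreg2 := reg_of_sreg hs2
      have hP1 : PP f1 = P0 f j0 ⊔ Ideal.span {a} := PP_update f j0 a
      have hP2 : PP f2 = P0 f j0 ⊔ Ideal.span {q} := PP_update f j0 q
      have hPf : PP f = P0 f j0 ⊔ Ideal.span {a * q} := by rw [← hfa]; exact PP_self f j0
      have hle1 : PP f ≤ PP f1 := by
        rw [hPf, hP1]
        refine sup_le_sup_left ?_ _
        rw [Ideal.span_singleton_le_span_singleton]
        exact Dvd.intro _ rfl
      have hlen1 : ∑ j, (Function.update p j0 [a] j).length ≤ n := by
        have h1 : ∑ j, (Function.update p j0 [a] j).length < ∑ j, (p j).length := by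
          refine Finset.sum_lt_sum (fun j _ => ?_) ⟨j0, Finset.mem_univ _, ?_⟩
          · by_cases hj : j = j0
            · subst hj
              rw [Function.update_self, List.length_singleton]
              omega
            · rw [Function.update_of_ne hj]
          · rw [Function.update_self, List.length_singleton]
            omega
        omega
      have hlen2 : ∑ j, (Function.update p j0 l j).length ≤ n := by
        have h1 : ∑ j, (Function.update p j0 l j).length < ∑ j, (p j).length := by
          refine Finset.sum_lt_sum (fun j _ => ?_) ⟨j0, Finset.mem_univ _, ?_⟩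
          · by_cases hj : j = j0
            · subst hj
              rw [Function.update_self, hal, List.length_cons]
              omega
            · rw [Function.update_of_ne hj]
          · rw [Function.update_self, hal, List.length_cons]
            omega
        omega
      have hp1 : ∀ j, f1 (ii j) = (Function.update p j0 [a] j).prod := by
        intro j
        by_cases hj : j = j0
        · subst hj
          rw [hf1, Function.update_self, Function.update_self, List.prod_singleton]
        · rw [hf1, Function.update_of_ne hj, Function.update_of_ne fun h => hj (ii_inj h)]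
          exact hp j
      have hp2 : ∀ j, f2 (ii j) = (Function.update p j0 l j).prod := by
        intro j
        by_cases hj : j = j0
        · subst hj
          rw [hf2, Function.update_self, Function.update_self]
        · rw [hf2, Function.update_of_ne hj, Function.update_of_ne fun h => hj (ii_inj h)]
          exact hp j
      have hκ1 : ∀ κ : Fin m → Rv (m + 3) K, (∀ j, κ j ∈ Function.update p j0 [a] j) →
          (Ideal.span (Set.range κ)).IsRadical := by
        intro κ h
        apply hκ
        intro j
        have h1 := h j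
        by_cases hj : j = j0
        · subst hj
          rw [Function.update_self, List.mem_singleton] at h1
          rw [h1, hal]
          exact List.mem_cons_self
        · rwa [Function.update_of_ne hj] at h1
      have hκ2 : ∀ κ : Fin m → Rv (m + 3) K, (∀ j, κ j ∈ Function.update p j0 l j) →
          (Ideal.span (Set.range κ)).IsRadical := by
        intro κ h
        apply hκ
        intro j
        have h1 := h j
        by_cases hj : j = j0
        · subst hj
          rw [Function.update_self] at h1
          rw [hal]
          exact List.mem_cons_of_mem _ h1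
        · rwa [Function.update_of_ne hj] at h1
      have hnu1 : ∀ j, ∀ x ∈ Function.update p j0 [a] j, ¬ IsUnit x := by
        intro j x hx
        by_cases hj : j = j0
        · subst hj
          rw [Function.update_self, List.mem_singleton] at hx
          apply hnu j
          rw [hx, hal]
          exact List.mem_cons_self
        · rw [Function.update_of_ne hj] at hx
          exact hnu j x hx
      have hnu2 : ∀ j, ∀ x ∈ Function.update p j0 l j, ¬ IsUnit x := by
        intro j x hx
        by_cases hj : j = j0
        · subst hj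
          rw [Function.update_self] at hx
          apply hnu j
          rw [hal]
          exact List.mem_cons_of_mem _ hx
        · rw [Function.update_of_ne hj] at hx
          exact hnu j x hx
      have hn1 := regMod hf1h hd1p hreg1
      have hn2 := regMod hf2h hd2p hreg2
      have v1 : ∀ j, v j ∈ JJ (PP f1) := by
        refine ih _ hlen1 hf1h hd1p hreg1 hp1 hκ1 hnu1 (σ := σ) (N := N) (r := r) (v := v)
          ?_ ?_ ?_ ?_ ?_ hvt ?_ fun j k c => JJ_mono hle1 (hO j k c)
        · simpa only [hdk1] using h01
        · simpa only [hdk1] using h12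
        · simpa only [hdk1] using hN
        · simpa only [hdk1] using hN2
        · simpa only [hdk1] using hv
        · simpa only [hk1] using JJ_mono hle1 hrel
      have hP0h := P0_homog hf j0
      have hex : ∀ j, ∃ w : RTv (m + 3) K, v j - C a * w ∈ JJ (P0 f j0) ∧ w.IsHomogeneous r ∧
          (N < a.totalDegree → w = 0) ∧ DX (d (kk (σ j))) (N - a.totalDegree) w := by
        intro j
        rcases hv j with h0 | ⟨n', hn', hX⟩
        · refine ⟨0, ?_, isHomogeneous_zero _ _ _, fun _ => rfl, Or.inl rfl⟩
          rw [h0, mul_zero, sub_zero]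
          exact (JJ _).zero_mem
        · have h1 := v1 j
          rw [hP1] at h1
          obtain ⟨w, h2, h3, h4, h5⟩ := rep_deg hP0h hh1 hX (hvt j) h1
          refine ⟨w, h2, h3, fun h => h4 (by omega), ?_⟩
          by_cases hn0 : n' < a.totalDegree
          · exact Or.inl (h4 hn0)
          · exact Or.inr ⟨n' - a.totalDegree, by omega, h5⟩
      choose w hw1 hwt hw0 hwx using hex
      have hle0 : P0 f j0 ≤ PP f := by rw [hPf]; exact le_sup_left
      have hfin : ∀ j, w j ∈ JJ (PP f2) → v j ∈ JJ (PP f) := by
        intro j hwj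
        rw [hP2] at hwj
        obtain ⟨ω, hω⟩ := JJ_sup hwj
        have h3 : v j = (v j - C a * w j) + C a * (w j - C q * ω) + C (a * q) * ω := by
          rw [C_mul]
          ring
        rw [h3]
        refine (JJ _).add_mem ((JJ _).add_mem (JJ_mono hle0 (hw1 j))
          ((JJ _).mul_mem_left _ (JJ_mono hle0 hω))) (JJ_of_inI fun m => ?_)
        rw [coeff_C_mul]
        apply Ideal.mul_mem_right
        rw [hPf]
        exact Ideal.mem_sup_right (Ideal.mem_span_singleton_self _)
      apply hfin
      by_cases hNa : N < a.totalDegree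
      · rw [hw0 j hNa]
        exact (JJ _).zero_mem
      have hna : ∀ x, a * x ∈ P0 f j0 → x ∈ P0 f j0 := by
        intro x hx
        apply P0_nzd hs j0
        have e : f (ii j0) * x = q * (a * x) := by rw [hfa]; ring
        rw [e]
        exact Ideal.mul_mem_left _ _ hx
      have hsat1 : Sat (P0 f j0 ⊔ Ideal.span {a}) := by
        rw [← hP1]
        exact (rp_of_reg (fun a => hf1h (kk a)) (fun a => hd1p _) hn1).sat
      have hrel2 : C (f (kk (σ 0))) * w 0 + C (f (kk (σ 1))) * w 1 + C (f (kk (σ 2))) * w 2
          ∈ JJ (PP f2) := by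
        rw [hP2]
        apply cancel hna hsat1
        rw [← hPf]
        have h1 : C a * (C (f (kk (σ 0))) * w 0 + C (f (kk (σ 1))) * w 1 + C (f (kk (σ 2))) * w 2)
            = (C (f (kk (σ 0))) * v 0 + C (f (kk (σ 1))) * v 1 + C (f (kk (σ 2))) * v 2)
              - (C (f (kk (σ 0))) * (v 0 - C a * w 0) + C (f (kk (σ 1))) * (v 1 - C a * w 1)
                + C (f (kk (σ 2))) * (v 2 - C a * w 2)) := by
          ring
        rw [h1]
        exact (JJ _).sub_mem hrel ((JJ _).add_mem ((JJ _).add_mem
          ((JJ _).mul_mem_left _ (JJ_mono hle0 (hw1 0)))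
          ((JJ _).mul_mem_left _ (JJ_mono hle0 (hw1 1))))
          ((JJ _).mul_mem_left _ (JJ_mono hle0 (hw1 2))))
      have hn2σ : RegMod (PP f2) (fun a => f (kk (σ a))) := by
        intro a b c hab hac hbc
        have h1 := hn2 (σ a) (σ b) (σ c) (σ.injective.ne hab) (σ.injective.ne hac)
          (σ.injective.ne hbc)
        simp only [hk2] at h1
        exact h1
      have hR2 := rp_of_reg (F := fun a => f (kk (σ a))) (d := fun a => d (kk (σ a)))
        (fun a => hf _) (fun a => hd _) hn2σ
      have hO2 : ∀ j k c, Om w j k c ∈ JJ (PP f2) :=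
        omega_zero_small (F := fun a => f (kk (σ a))) (d := fun a => d (kk (σ a)))
          (PP_homog hf2h) (fun a => hf _) hR2.n0 hR2.n1 hR2.n01 hrel2 (N := N - a.totalDegree)
          (s := d (kk (σ 0)) + d (kk (σ 1)) + d (kk (σ 2)) - (2 * (N - a.totalDegree) + 1))
          hwx (by omega) (by omega)
      refine ih _ hlen2 hf2h hd2p hreg2 hp2 hκ2 hnu2 (σ := σ) (N := N - a.totalDegree) (r := r) (v := w)
          ?_ ?_ ?_ ?_ ?_ hwt ?_ hO2 j
      · simpa only [hdk2] using h01
      · simpa only [hdk2] using h12
      · simp only [hdk2]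
        omega
      · simp only [hdk2]
        omega
      · simpa only [hdk2] using hwx
      · simpa only [hk2] using hrel2
    · push Not at hlong
      have hPp : (PP f).IsRadical := by
        rw [PP_eq]
        apply hκ
        intro j
        have h1 := hlong j
        rcases hp0 : p j with _ | ⟨a, l⟩
        · exact absurd hp0 (hne j)
        · rw [hp0, List.length_cons] at h1
          have h2 : l = [] := List.length_eq_zero_iff.1 (by omega)
          rw [hp j, hp0, h2, List.prod_singleton]
          exact List.mem_singleton.2 rfl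
      exact base_case hf hd hreg hPp h01 h12 hN hv hvt hrel hO j

end main

end Pool.Agent.H868.TR
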