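import Pool.Agent.H868.TR.Gg

/-!
Complete intersections in `m + 3` variables, the first `m` generators of which are products of forms such
that all choices of factors generate radical ideals: the maps below the middle.
-/

namespace Pool.Agent.H868.TR

set_option maxHeartbeats 400000
set_option linter.unusedSectionVars false

open MvPolynomial
open Pool.Agent.H868.TS hiding L all_main syz_trivial core main
open Pool.Agent.H868.TP hiding all_aux Spl all_main syz_trivial core main main_lin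
open Pool.Agent.W515.SLP (Deg AnnP annP_of_homog annP_of_gt)
open Pool.Agent.TH61.SL (hc comp_mul hc_zero hc_hom comp_self comp_ne)
open H503R3.QCI (Homog NZD Reg homog_span)
open TH130CI (gor mem_gor SRegOn sreg_of_reg surj_of_inj ci_gor' span_insert')

universe u

variable {K : Type u} [Field K] {m : ℕ}

/-- `f` is a complete intersection, the first `m` forms are products, all choices of factors generate
radical ideals -/
structure Spl (p : Fin m → List (Rv (m + 3) K)) (f : Fin (m + 3) → Rv (m + 3) K)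
    (d : Fin (m + 3) → ℕ) : Prop where
  hm : 1 ≤ m
  hf : ∀ i, (f i).IsHomogeneous (d i)
  hd : ∀ i, 1 ≤ d i
  hreg : Reg f
  hp : ∀ j, f (ii j) = (p j).prod
  hκ : ∀ κ : Fin m → Rv (m + 3) K, (∀ j, κ j ∈ p j) → (Ideal.span (Set.range κ)).IsRadical
  hnu : ∀ j, ∀ x ∈ p j, ¬ IsUnit x
  h2 : ∀ j : Fin m, 2 ≤ d (ii j)

variable {p : Fin m → List (Rv (m + 3) K)} {f : Fin (m + 3) → Rv (m + 3) K} {d : Fin (m + 3) → ℕ}
  {σ : Equiv.Perm (Fin 3)} {N r : ℕ} {v : Fin 3 → RTv (m + 3) K}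

lemma Spl.rp [CharZero K] (h : Spl p f d) (σ : Equiv.Perm (Fin 3)) :
    RP (fun a => f (kk (σ a))) (PP f) := by
  have hn := regMod h.hf h.hd h.hreg
  exact rp_of_reg (F := fun a => f (kk (σ a))) (d := fun a => d (kk (σ a)))
    (fun a => h.hf _) (fun a => h.hd _)
    (fun a b c hab hac hbc => hn (σ a) (σ b) (σ c) (σ.injective.ne hab) (σ.injective.ne hac)
        (σ.injective.ne hbc))

/-- **the syzygy vanishes** -/
theorem all_main [CharZero K] (h : Spl p f d)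
    (h01 : d (kk (σ 0)) ≤ d (kk (σ 1))) (h12 : d (kk (σ 1)) ≤ d (kk (σ 2)))
    (hN : N < d (kk (σ 0)) + d (kk (σ 1)))
    (hN2 : 2 * N + 1 ≤ d (kk (σ 0)) + d (kk (σ 1)) + d (kk (σ 2)))
    (hv : ∀ a, DX (d (kk (σ a))) N (v a)) (hvt : ∀ a, (v a).IsHomogeneous r)
    (hrel : C (f (kk (σ 0))) * v 0 + C (f (kk (σ 1))) * v 1 + C (f (kk (σ 2))) * v 2 ∈ JJ (PP f))
    (j : Fin 3) : v j ∈ JJ (PP f) := by
  have hRP := h.rp σ
  have hO : ∀ j k c, Om v j k c ∈ JJ (PP f) := by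
    by_cases hc : 2 * N + 1 = d (kk (σ 0)) + d (kk (σ 1)) + d (kk (σ 2))
    · exact omega_zero (F := fun a => f (kk (σ a))) (d := fun a => d (kk (σ a)))
        (by have := h.hm; omega) (PP_homog h.hf) (PP_one h.hf h.h2)
        (fun a => h.hf _) hRP.n0 hRP.n1 hRP.n01 hrel hv hc
    · exact omega_zero_small (F := fun a => f (kk (σ a))) (d := fun a => d (kk (σ a)))
        (PP_homog h.hf) (fun a => h.hf _) hRP.n0 hRP.n1 hRP.n01 hrel
        (s := d (kk (σ 0)) + d (kk (σ 1)) + d (kk (σ 2)) - (2 * N + 1)) hv (by omega) (by omega)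
  exact all_aux _ p le_rfl h.hf h.hd h.hreg h.hp h.hκ h.hnu h01 h12 hN hN2 hv hvt hrel hO j

/-- the syzygy is trivial modulo the generic linear form -/
theorem syz_trivial [CharZero K] (h : Spl p f d)
    (h01 : d (kk (σ 0)) ≤ d (kk (σ 1))) (h12 : d (kk (σ 1)) ≤ d (kk (σ 2)))
    (hN2 : 2 * N + 1 ≤ d (kk (σ 0)) + d (kk (σ 1)) + d (kk (σ 2)))
    (hv : ∀ a, DX (d (kk (σ a))) N (v a)) (hvt : ∀ a, (v a).IsHomogeneous r)
    (hrel : C (f (kk (σ 0))) * v 0 + C (f (kk (σ 1))) * v 1 + C (f (kk (σ 2))) * v 2 ∈ JJ (PP f)) :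
    ∃ s : Fin 3 → RTv (m + 3) K, InI (PP f)
      ((C (f (kk (σ 0))) * v 0 + C (f (kk (σ 1))) * v 1 + C (f (kk (σ 2))) * v 2)
        - gl (m + 3) K * (C (f (kk (σ 0))) * s 0 + C (f (kk (σ 1))) * s 1
          + C (f (kk (σ 2))) * s 2)) := by
  classical
  by_cases hN : N < d (kk (σ 0)) + d (kk (σ 1))
  · have h1 : ∀ j, ∃ s : RTv (m + 3) K, InI (PP f) (v j - gl (m + 3) K * s) := fun j =>
      mem_JJ.1 (all_main h h01 h12 hN hN2 hv hvt hrel j)
    choose s hs using h1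
    refine ⟨s, ?_⟩
    have h2 : (C (f (kk (σ 0))) * v 0 + C (f (kk (σ 1))) * v 1 + C (f (kk (σ 2))) * v 2)
        - gl (m + 3) K * (C (f (kk (σ 0))) * s 0 + C (f (kk (σ 1))) * s 1
          + C (f (kk (σ 2))) * s 2)
        = C (f (kk (σ 0))) * (v 0 - gl (m + 3) K * s 0)
          + C (f (kk (σ 1))) * (v 1 - gl (m + 3) K * s 1)
          + C (f (kk (σ 2))) * (v 2 - gl (m + 3) K * s 2) := by ring
    rw [h2]
    exact (((hs 0).mul_left _).add ((hs 1).mul_left _)).add ((hs 2).mul_left _)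
  · have hRP := h.rp σ
    have hv2 : v 2 = 0 := by
      rcases hv 2 with h0 | ⟨n, hn, -⟩
      · exact h0
      · omega
    have hrel2 : C (f (kk (σ 1))) * v 1 - C (f (kk (σ 0))) * (-v 0) ∈ JJ (PP f) := by
      rw [hv2] at hrel
      convert hrel using 1
      ring
    obtain ⟨ω, hω⟩ := hRP.n01 _ _ hrel2
    have h0 : v 0 + C (f (kk (σ 1))) * ω ∈ JJ (PP f) := by
      apply hRP.n0
      have h3 := (JJ (PP f)).sub_mem hrel2
        ((JJ (PP f)).mul_mem_left (C (f (kk (σ 1)))) hω)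
      convert h3 using 1
      ring
    obtain ⟨s1, h1⟩ := mem_JJ.1 hω
    obtain ⟨s0, h2⟩ := mem_JJ.1 h0
    refine ⟨![s0, s1, 0], ?_⟩
    have e0 : (![s0, s1, 0] : Fin 3 → RTv (m + 3) K) 0 = s0 := rfl
    have e1 : (![s0, s1, 0] : Fin 3 → RTv (m + 3) K) 1 = s1 := rfl
    have e2 : (![s0, s1, 0] : Fin 3 → RTv (m + 3) K) 2 = 0 := rfl
    rw [e0, e1, e2, hv2]
    have h3 : (C (f (kk (σ 0))) * v 0 + C (f (kk (σ 1))) * v 1 + C (f (kk (σ 2))) * 0)
        - gl (m + 3) K * (C (f (kk (σ 0))) * s0 + C (f (kk (σ 1))) * s1 + C (f (kk (σ 2))) * 0)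
        = C (f (kk (σ 0))) * (v 0 + C (f (kk (σ 1))) * ω - gl (m + 3) K * s0)
          + C (f (kk (σ 1))) * (v 1 - C (f (kk (σ 0))) * ω - gl (m + 3) K * s1) := by
      ring
    rw [h3]
    exact (h2.mul_left _).add (h1.mul_left _)

/-- **the generic kernel vector vanishes** -/
theorem core [CharZero K] (h : Spl p f d) {n : ℕ}
    (h01 : d (kk (σ 0)) ≤ d (kk (σ 1))) (h12 : d (kk (σ 1)) ≤ d (kk (σ 2)))
    (hN : 2 * (n + 1) + 1 ≤ d (kk (σ 0)) + d (kk (σ 1)) + d (kk (σ 2)))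
    {φ : Rv (m + 3) K →ₗ[K] K} {D : ℕ} (hφ : Deg φ D)
    (hnD : n + 1 ≤ D) (hI : PP f ⊔ Ideal.span (Set.range fun a => f (kk (σ a))) = gor φ) :
    ∃ p : Fin (m + 3) → K, ∀ u : Rv (m + 3) K, u.IsHomogeneous n → AnnP φ (lf p * u) →
      AnnP φ u := by
  classical
  by_contra hcon
  push Not at hcon
  obtain ⟨r, u, hut, hux, hker, hne⟩ := kern hφ hnD hcon
  rw [← hI] at hker hne
  set I := PP f ⊔ Ideal.span (Set.range fun a => f (kk (σ a))) with hIdef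
  have hPh : Homog (PP f) := PP_homog h.hf
  have hsat : Sat (PP f) := (h.rp σ).sat
  have hPx : XH (n + 1) (gl (m + 3) K * u) := (XH.gl.mul hux).cast (by omega)
  have hPt : (gl (m + 3) K * u).IsHomogeneous (1 + r) := gl_hom.mul hut
  obtain ⟨v, hv, hvt, hrel⟩ := exists_v (F := fun a => f (kk (σ a))) (d := fun a => d (kk (σ a)))
    hPh (fun a => h.hf _) hPx hPt hker
  have hrel' : C (f (kk (σ 0))) * v 0 + C (f (kk (σ 1))) * v 1 + C (f (kk (σ 2))) * v 2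
      ∈ JJ (PP f) := by
    rw [mem_JJ]
    refine ⟨-u, ?_⟩
    convert hrel using 1
    ring
  obtain ⟨s, hs⟩ := syz_trivial h h01 h12 (N := n + 1) hN hv hvt hrel'
  have h1 : InI (PP f) (gl (m + 3) K * (u + (C (f (kk (σ 0))) * s 0 + C (f (kk (σ 1))) * s 1
      + C (f (kk (σ 2))) * s 2))) := by
    have h2 := hrel.sub hs
    convert h2 using 1
    ring
  have h2 := gl_nzd hsat h1
  have hmem : ∀ j : Fin 3, f (kk (σ j)) ∈ I := fun j =>
    Ideal.mem_sup_right (Ideal.subset_span ⟨j, rfl⟩)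
  have hqI : PP f ≤ I := le_sup_left
  have hCF : ∀ {g : Rv (m + 3) K}, g ∈ I → ∀ Y : RTv (m + 3) K, InI I (C g * Y) := fun hg Y m => by
    rw [coeff_C_mul]
    exact Ideal.mul_mem_right _ _ hg
  apply hne
  have h4 := (inI_mono hqI h2).sub (((hCF (hmem 0) (s 0)).add (hCF (hmem 1) (s 1))).add
    (hCF (hmem 2) (s 2)))
  convert h4 using 1
  ring

/-- **main theorem** -/
theorem main [CharZero K] (h : Spl p f d) :
    ∃ ℓ : Rv (m + 3) K, ℓ.IsHomogeneous 1 ∧ ∀ i j : ℕ,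
      (2 * (i + j) + 1 ≤ d (kk 0) + d (kk 1) + d (kk 2) → ∀ p : Rv (m + 3) K, p.IsHomogeneous i →
        ℓ ^ j * p ∈ Ideal.span (Set.range f) → p ∈ Ideal.span (Set.range f)) ∧
      (2 * (∑ j, (d j - 1)) + 1 ≤ 2 * i + (d (kk 0) + d (kk 1) + d (kk 2)) →
        ∀ p : Rv (m + 3) K, p.IsHomogeneous (i + j) →
        ∃ r : Rv (m + 3) K, r.IsHomogeneous i ∧ p - ℓ ^ j * r ∈ Ideal.span (Set.range f)) := by
  classical
  obtain ⟨φ, hφ, hI⟩ := ci_gor' h.hf h.hd h.hreg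
  have hsum := sum_d h.hd h.h2
  have hk0 := h.hd (kk 0)
  have hk1 := h.hd (kk 1)
  have hk2 := h.hd (kk 2)
  have hm := h.hm
  obtain ⟨n, hn⟩ : ∃ n, 2 * (n + 1) + 1 = d (kk 0) + d (kk 1) + d (kk 2) ∨
      2 * (n + 1) + 2 = d (kk 0) + d (kk 1) + d (kk 2) := by
    refine ⟨(d (kk 0) + d (kk 1) + d (kk 2) - 3) / 2, ?_⟩
    omega
  set e : Fin 3 → ℕ := fun a => d (kk a) with he
  set σ := Tuple.sort e with hσ
  have hmono : Monotone (e ∘ σ) := Tuple.monotone_sort e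
  have hs : e (σ 0) + e (σ 1) + e (σ 2) = e 0 + e 1 + e 2 := by
    have h1 := Equiv.sum_comp σ e
    rwa [Fin.sum_univ_three, Fin.sum_univ_three] at h1
  have h01 : e (σ 0) ≤ e (σ 1) := hmono (by decide)
  have h12 : e (σ 1) ≤ e (σ 2) := hmono (by decide)
  have hr : (Set.range fun a => f (kk (σ a))) = Set.range fun a : Fin 3 => f (kk a) :=
    σ.surjective.range_comp fun a : Fin 3 => f (kk a)
  obtain ⟨p', hp'⟩ := core h (σ := σ) (n := n) h01 h12 (by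
    change 2 * (n + 1) + 1 ≤ e (σ 0) + e (σ 1) + e (σ 2)
    rw [hs]
    change 2 * (n + 1) + 1 ≤ d (kk 0) + d (kk 1) + d (kk 2)
    omega) hφ (by omega) (by rw [← hI, I_eq, hr])
  obtain ⟨h3, h4⟩ := maps_of_inj (n := n) hφ (lf_hom p') fun j hj u hu hm' =>
    inj_low hφ (by omega) hp' hj hu hm'
  refine ⟨lf p', lf_hom p', fun i j => ⟨fun hij q hq hm' => ?_, fun hij q hq => ?_⟩⟩
  · rw [hI] at hm' ⊢
    exact h3 i j (by omega) q hq hm'
  · obtain ⟨r, hr, hm'⟩ := h4 i j (by omega) q hq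
    refine ⟨r, hr, ?_⟩
    rw [hI]
    exact hm'

/-- **main theorem**, with linear factors -/
theorem main_lin [CharZero K] {m : ℕ} (hm : 1 ≤ m) {f : Fin (m + 3) → Rv (m + 3) K}
    {d : Fin (m + 3) → ℕ} (hf : ∀ i, (f i).IsHomogeneous (d i)) (hd : ∀ i, 1 ≤ d i)
    (hreg : Reg f) (p : Fin m → List (Rv (m + 3) K)) (hp : ∀ j, f (ii j) = (p j).prod)
    (hnu : ∀ j, ∀ x ∈ p j, ¬ IsUnit x)
    (hκ : ∀ κ : Fin m → Rv (m + 3) K, (∀ j, κ j ∈ p j) →
      (∀ j, (κ j).IsHomogeneous 1) ∨ (Ideal.span (Set.range κ)).IsRadical)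
    (h2 : ∀ j : Fin m, 2 ≤ d (ii j)) :
    ∃ ℓ : Rv (m + 3) K, ℓ.IsHomogeneous 1 ∧ ∀ i j : ℕ,
      (2 * (i + j) + 1 ≤ d (kk 0) + d (kk 1) + d (kk 2) → ∀ p : Rv (m + 3) K, p.IsHomogeneous i →
        ℓ ^ j * p ∈ Ideal.span (Set.range f) → p ∈ Ideal.span (Set.range f)) ∧
      (2 * (∑ j, (d j - 1)) + 1 ≤ 2 * i + (d (kk 0) + d (kk 1) + d (kk 2)) →
        ∀ p : Rv (m + 3) K, p.IsHomogeneous (i + j) →
        ∃ r : Rv (m + 3) K, r.IsHomogeneous i ∧ p - ℓ ^ j * r ∈ Ideal.span (Set.range f)) := by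
  refine main (p := p) ⟨hm, hf, hd, hreg, hp, fun κ h => ?_, hnu, h2⟩
  rcases hκ κ h with h1 | h1
  · have h3 : ∀ j, ∃ q : Fin (m + 3) → K, κ j = lf q := fun j => exists_lf (h1 j)
    choose A hA using h3
    have h4 : κ = fun j => lf (A j) := funext hA
    rw [h4]
    exact (prime_lin A).isRadical
  · exact h1

end Pool.Agent.H868.TR
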